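import Pool.Agent.Lib.MP_d439b2_co.FK.Spec

/-!
# FK/A2: traces on an induced `P_4`
-/

set_option autoImplicit false

namespace Pool.Agent.MPd439b2.FK

open Pool.Agent.MPd439b2 Pool.Agent.MPd439b2.BU Pool.Agent.MPd439b2.HC

theorem fA2 : S_A2 := by
  intro V G X q y z hF hq hz hzq hzn hy hyq hyz hex
  obtain ⟨hqX, hinj, hadj⟩ := hq
  have h4 : SP G X 4 (fun i => {q i}) (rc [0, 1, 2, 4]) := by
    refine ⟨fun i hi => Set.singleton_subset_iff.2 (hqX i hi), fun i _ => Conn.singleton G _, ?_, ?_⟩
    · intro i hi j hj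
      rw [Set.disjoint_singleton]
      intro h
      have := hinj i hi j (by omega) h
      omega
    · intro i hi j hj
      rw [tch_single, hadj i hi j (by omega)]
      interval_cases i <;> interval_cases j <;> decide
  obtain ⟨t0, ht0, hb0, hS5⟩ := snocV h4 rfl hz (fun j hj h => hzq j hj h)
  have ht0' : t0 = 0 := by
    apply Nat.eq_of_testBit_eq
    intro j
    rw [Nat.zero_testBit]
    by_cases hj : j < 4
    · by_contra hc
      have h1 := hb0 j hj
      rw [tch_single] at h1
      exact hzn j hj (h1.2 (by simpa using hc))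
    · exact Nat.testBit_lt_two_pow
        (lt_of_lt_of_le ht0 (Nat.pow_le_pow_right (by norm_num) (by omega)))
  subst ht0'
  obtain ⟨t, ht, hb, hS6⟩ := snocV hS5 rfl hy (by
    intro j hj h
    by_cases hj4 : j < 4
    · rw [if_pos hj4] at h
      exact hyq j hj4 h
    · rw [if_neg hj4] at h
      exact hyz.ne h)
  have hb4 : t.testBit 4 = true := by
    have h1 := hb 4 (by norm_num)
    rw [if_neg (by norm_num : ¬ 4 < 4), tch_single] at h1
    exact h1.1 hyz
  have hbj : ∀ j < 4, (G.Adj y (q j) ↔ t.testBit j = true) := by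
    intro j hj
    have h1 := hb j (by omega)
    rw [if_pos hj, tch_single] at h1
    exact h1
  have ht' : t < 32 := ht
  obtain ⟨s, hs, rfl⟩ : ∃ s < 16, t = 16 + s := by
    have h16 : 16 ≤ t := Nat.ge_two_pow_of_testBit hb4
    exact ⟨t - 16, by omega, by omega⟩
  have hs0 : s ≠ 0 := by
    rintro rfl
    obtain ⟨i, hi, hai⟩ := hex
    have h1 := (hbj i hi).1 hai
    interval_cases i <;> revert h1 <;> decide
  have hmem : s ∈ [1, 8, 15] := by
    by_contra hns
    exact killF hF hS6 rfl cP4 (tabP4 s hs hs0 hns)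
  simp only [List.mem_cons, List.not_mem_nil, or_false] at hmem
  rcases hmem with rfl | rfl | rfl
  · left
    intro i hi
    rw [hbj i hi]
    interval_cases i <;> decide
  · right; left
    intro i hi
    rw [hbj i hi]
    interval_cases i <;> decide
  · right; right
    intro i hi
    rw [hbj i hi]
    interval_cases i <;> decide

end Pool.Agent.MPd439b2.FK
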