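import Pool.Agent.Lib.MP_d439b2_co.FK.Spec

/-!
# MP_d439b2_co, FK: P_4 + P_1 gives P_6 in prime fork-free graphs
-/

set_option autoImplicit false

namespace Pool.Agent.MPd439b2.FK

open Pool.Agent.MPd439b2
open Pool.Agent.MPd439b2.BU
open Pool.Agent.MPd439b2.HC

namespace fA3Aux

variable {V : Type} {G : SimpleGraph V} {X : Set V} {q : ℕ → V}

/-- the path `z, y, q 0, ..., q 3` -/
theorem ext6 (h : IP G X 4 q) {y z : V} (hy : y ∈ X) (hz : z ∈ X) (hyq : ∀ i < 4, y ≠ q i)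
    (hzq : ∀ i < 4, z ≠ q i) (hyz : G.Adj y z) (hz' : ∀ i < 4, ¬ G.Adj z (q i))
    (hy' : ∀ i < 4, (G.Adj y (q i) ↔ i = 0)) : ∃ p, IP G X 6 p := by
  obtain ⟨p, hp⟩ : ∃ p : ℕ → V, p = fun i => if i = 0 then z else if i = 1 then y else q (i - 2) :=
    ⟨_, rfl⟩
  have p0 : p 0 = z := by rw [hp]; rfl
  have p1 : p 1 = y := by rw [hp]; rfl
  have p2 : ∀ i, p (i + 2) = q i := by
    intro i
    rw [hp]
    show (if i + 2 = 0 then z else if i + 2 = 1 then y else q (i + 2 - 2)) = q i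
    rw [if_neg (by omega), if_neg (by omega), Nat.add_sub_cancel]
  have cases6 : ∀ i < 6, i = 0 ∨ i = 1 ∨ ∃ j < 4, i = j + 2 := by
    intro i hi
    by_cases h0 : i = 0
    · exact Or.inl h0
    by_cases h1 : i = 1
    · exact Or.inr (Or.inl h1)
    exact Or.inr (Or.inr ⟨i - 2, by omega, by omega⟩)
  refine ⟨p, ?_, ?_, ?_⟩
  · intro i hi
    rcases cases6 i hi with rfl | rfl | ⟨j, hj, rfl⟩
    · rw [p0]; exact hz
    · rw [p1]; exact hy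
    · rw [p2]; exact h.1 j hj
  · intro i hi j hj hij
    rcases cases6 i hi with rfl | rfl | ⟨a, ha, rfl⟩ <;> rcases cases6 j hj with rfl | rfl | ⟨b, hb, rfl⟩
    · rfl
    · rw [p0, p1] at hij
      exact absurd hij.symm hyz.ne
    · rw [p0, p2] at hij
      exact absurd hij (hzq b hb)
    · rw [p0, p1] at hij
      exact absurd hij hyz.ne
    · rfl
    · rw [p1, p2] at hij
      exact absurd hij (hyq b hb)
    · rw [p0, p2] at hij
      exact absurd hij.symm (hzq a ha)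
    · rw [p1, p2] at hij
      exact absurd hij.symm (hyq a ha)
    · rw [p2, p2] at hij
      rw [h.2.1 a ha b hb hij]
  · intro i hi j hj
    rcases cases6 i hi with rfl | rfl | ⟨a, ha, rfl⟩ <;> rcases cases6 j hj with rfl | rfl | ⟨b, hb, rfl⟩
    · rw [p0]
      exact iff_of_false (G.irrefl) (by omega)
    · rw [p0, p1]
      exact iff_of_true hyz.symm (by omega)
    · rw [p0, p2]
      exact iff_of_false (hz' b hb) (by omega)
    · rw [p0, p1]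
      exact iff_of_true hyz (by omega)
    · rw [p1]
      exact iff_of_false (G.irrefl) (by omega)
    · rw [p1, p2, hy' b hb]
      omega
    · rw [p0, p2]
      exact iff_of_false (fun h => hz' a ha h.symm) (by omega)
    · rw [p1, p2, G.adj_comm, hy' a ha]
      omega
    · rw [p2, p2, h.2.2 a ha b hb]
      omega

/-- the path is contained in the component of `q 0` in the complement -/
theorem comp_P (h : IP G X 4 q) {A K : Set V} (hcl : ∀ u ∈ A, u ∉ nb Gᶜ K) (h0 : q 0 ∈ K)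
    (hPA : ∀ i < 4, q i ∈ A) : ∀ i < 4, q i ∈ K := by
  have step : ∀ i < 4, ∀ j < 4, q i ∈ K → i ≠ j → ¬ (i + 1 = j ∨ j + 1 = i) → q j ∈ K := by
    intro i hi j hj hiK hij hne
    by_contra hjK
    refine hcl (q j) (hPA j hj) ⟨hjK, q i, hiK, ?_, ?_⟩
    · exact fun e => hij (h.2.1 i hi j hj e)
    · exact fun e => hne ((h.2.2 i hi j hj).1 e)
  have h2 : q 2 ∈ K := step 0 (by omega) 2 (by omega) h0 (by omega) (by omega)
  have h3 : q 3 ∈ K := step 0 (by omega) 3 (by omega) h0 (by omega) (by omega)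
  have h1 : q 1 ∈ K := step 3 (by omega) 1 (by omega) h3 (by omega) (by omega)
  intro i hi
  interval_cases i
  · exact h0
  · exact h1
  · exact h2
  · exact h3

end fA3Aux

open fA3Aux in
theorem fA3 (hA2 : S_A2) : S_A3 := by
  intro V G X q z0 hPrm hF hq hz0 hz0q hz0n
  by_contra hno
  obtain ⟨Z, hZ⟩ : ∃ Z : Set V, Z = {z | z ∈ X ∧ (∀ i < 4, z ≠ q i) ∧ ∀ i < 4, ¬ G.Adj z (q i)} :=
    ⟨_, rfl⟩
  obtain ⟨Y, hY⟩ : ∃ Y : Set V, Y = {y | y ∈ X ∧ (∀ i < 4, y ≠ q i) ∧ (∃ i < 4, G.Adj y (q i)) ∧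
    ∃ z ∈ Z, G.Adj y z} := ⟨_, rfl⟩
  obtain ⟨Q, hQ⟩ : ∃ Q : Set V, Q = {x | x ∈ X ∧ x ∉ Y ∧ x ∉ Z} := ⟨_, rfl⟩
  have memZ : ∀ z, z ∈ Z ↔ z ∈ X ∧ (∀ i < 4, z ≠ q i) ∧ ∀ i < 4, ¬ G.Adj z (q i) := by
    intro z; rw [hZ]; rfl
  have memY : ∀ y, y ∈ Y ↔ y ∈ X ∧ (∀ i < 4, y ≠ q i) ∧ (∃ i < 4, G.Adj y (q i)) ∧
      ∃ z ∈ Z, G.Adj y z := by
    intro y; rw [hY]; rfl
  have memQ : ∀ x, x ∈ Q ↔ x ∈ X ∧ x ∉ Y ∧ x ∉ Z := by
    intro x; rw [hQ]; rfl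
  have hPQ : ∀ i < 4, q i ∈ Q := by
    intro i hi
    rw [memQ, memY, memZ]
    exact ⟨hq.1 i hi, fun h => h.2.1 i hi rfl, fun h => h.2.1 i hi rfl⟩
  have hnbr : ∀ x ∈ Q, (∀ i < 4, x ≠ q i) → ∃ i < 4, G.Adj x (q i) := by
    intro x hx hxq
    rw [memQ] at hx
    by_contra hcon
    push Not at hcon
    exact hx.2.2 ((memZ x).2 ⟨hx.1, hxq, hcon⟩)
  have hQZ : ∀ x ∈ Q, ∀ z ∈ Z, ¬ G.Adj x z := by
    intro x hx z hz hxz
    have hz' := (memZ z).1 hz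
    by_cases hxq : ∀ i < 4, x ≠ q i
    · have hx' := (memQ x).1 hx
      exact hx'.2.1 ((memY x).2 ⟨hx'.1, hxq, hnbr x hx hxq, z, hz, hxz⟩)
    · push Not at hxq
      obtain ⟨i, hi, rfl⟩ := hxq
      exact hz'.2.2 i hi hxz.symm
  -- (1)
  have h1 : ∀ y ∈ Y, ∀ i < 4, G.Adj y (q i) := by
    intro y hy
    obtain ⟨hyX, hyq, hyn, z, hz, hyz⟩ := (memY y).1 hy
    obtain ⟨hzX, hzq, hzn⟩ := (memZ z).1 hz
    rcases hA2 V G X q y z hF hq hzX hzq hzn hyX hyq hyz hyn with h | h | h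
    · exact absurd (ext6 hq hyX hzX hyq hzq hyz hzn h) hno
    · refine absurd (ext6 (q := fun i => q (4 - 1 - i)) hq.rev hyX hzX (fun i hi => hyq _ (by omega))
        (fun i hi => hzq _ (by omega)) hyz (fun i hi => hzn _ (by omega)) ?_) hno
      intro i hi
      rw [h _ (by omega)]
      omega
    · exact h
  -- (2)
  obtain ⟨K, hKQ, h0K, hKc, hKcl⟩ := exists_comp Gᶜ (hPQ 0 (by omega))
  have hPK := comp_P hq hKcl h0K hPQ
  have hcompl : ∀ x ∈ Q, x ∉ K → ∀ b ∈ K, G.Adj x b := by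
    intro x hx hxK b hb
    by_contra hxb
    refine hKcl x hx ⟨hxK, b, hb, ?_, fun e => hxb e.symm⟩
    exact fun e => hxK (e ▸ hb)
  -- (3)
  have h3 : ∀ y ∈ Y, ∀ k ∈ K, G.Adj y k := by
    intro y hy k hk
    by_contra hyk
    obtain ⟨hyX, hyq, hyn, z, hz, hyz⟩ := (memY y).1 hy
    obtain ⟨hzX, hzq, hzn⟩ := (memZ z).1 hz
    obtain ⟨X1, hX1⟩ : ∃ X1 : Set V, X1 = {x | x ∈ Q ∧ G.Adj y x} := ⟨_, rfl⟩
    have memX1 : ∀ x, x ∈ X1 ↔ x ∈ Q ∧ G.Adj y x := by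
      intro x; rw [hX1]; rfl
    have hPX1 : ∀ i < 4, q i ∈ X1 := fun i hi => (memX1 _).2 ⟨hPQ i hi, h1 y hy i hi⟩
    obtain ⟨K1, hK1X, h0K1, hK1c, hK1cl⟩ := exists_comp Gᶜ (hPX1 0 (by omega))
    have hPK1 := comp_P hq hK1cl h0K1 hPX1
    have hK1K : K1 ⊆ K := by
      by_contra hcon
      obtain ⟨b, hb, a, ha, hab⟩ := hK1c.2 (K1 ∩ K) Set.inter_subset_left ⟨q 0, h0K1, h0K⟩
        (fun h => hcon (Set.inter_eq_left.1 h))
      refine hKcl a ((memX1 a).1 (hK1X ha.1)).1 ⟨fun h => ha.2 ⟨ha.1, h⟩, b, hb.2, hab⟩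
    have hkK1 : k ∉ K1 := fun h => hyk ((memX1 k).1 (hK1X h)).2
    obtain ⟨b0, hb0, x, hx, hbx⟩ := hKc.2 K1 hK1K ⟨q 0, h0K1⟩ (fun h => hkK1 (h ▸ hk))
    have hxQ : x ∈ Q := hKQ hx.1
    have hxX1 : x ∉ X1 := fun h => hK1cl x h ⟨hx.2, b0, hb0, hbx⟩
    have hyx : ¬ G.Adj y x := fun h => hxX1 ((memX1 x).2 ⟨hxQ, h⟩)
    have hxq : ∀ i < 4, x ≠ q i := fun i hi e => hx.2 (e ▸ hPK1 i hi)
    obtain ⟨i, hi, hxi⟩ := hnbr x hxQ hxq
    obtain ⟨a, ha, b, hb, hxa, hxb, hab, hnab⟩ := mixed_co hK1c ⟨q i, hPK1 i hi, hxi⟩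
      ⟨b0, hb0, fun h => hbx.2 h.symm⟩
    have haX1 := (memX1 a).1 (hK1X ha)
    have hbX1 := (memX1 b).1 (hK1X hb)
    have hzb : z ≠ b := fun e => by
      have h4 := (memQ b).1 hbX1.1
      exact h4.2.2 (e ▸ hz)
    exact fork5 hF hyX hzX ((memQ b).1 hbX1.1).1 ((memQ a).1 haX1.1).1 ((memQ x).1 hxQ).1 hzb hyz
      hbX1.2 haX1.2 hxa.symm hyx (fun h => hQZ b hbX1.1 z hz h.symm)
      (fun h => hQZ a haX1.1 z hz h.symm) (fun h => hQZ x hxQ z hz h.symm)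
      (fun h => hnab h.symm) (fun h => hxb h.symm)
  -- (4)
  have hmod : Mod G X K := by
    refine ⟨fun x hx => ((memQ x).1 (hKQ hx)).1, ?_⟩
    intro y hyX hyK a ha b hb hya
    by_cases hyY : y ∈ Y
    · exact h3 y hyY b hb
    by_cases hyZ : y ∈ Z
    · exact absurd hya.symm (hQZ a (hKQ ha) y hyZ)
    exact hcompl y ((memQ y).2 ⟨hyX, hyY, hyZ⟩) hyK b hb
  rcases hPrm K hmod with h | h
  · have h4 := h (hPK 0 (by omega)) (hPK 1 (by omega))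
    have h5 := hq.2.1 0 (by omega) 1 (by omega) h4
    omega
  · have h4 : z0 ∈ K := by rw [h]; exact hz0
    exact ((memQ z0).1 (hKQ h4)).2.2 ((memZ z0).2 ⟨hz0, hz0q, hz0n⟩)

end Pool.Agent.MPd439b2.FK
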