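import Pool.Agent.Lib.MP_d439b2_co.FK.Spec

/-!
# MP_d439b2_co, FK: the corollary for the pairs (fork, J) (helper51)
-/

set_option autoImplicit false

namespace Pool.Agent.MPd439b2.FK

open Pool.Agent.MPd439b2
open Pool.Agent.MPd439b2.BU
open Pool.Agent.MPd439b2.HC

theorem fFork (h1 : S_F) (h2 : S_T1) (h3 : KS.S_Y8) (h4 : S_T2) (h5 : S_R2) (h6 : S_R3)
    (h7 : S_LayCW) (h8 : S_T3) (h9 : S_T4) (h10 : S_R5) : S_Fork := by
  intro W J hJ
  obtain ⟨k, hk⟩ := h2 h3 _ _ _ _ hJ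
  refine h4 h5 h6 h7 _ _ _ _ ⟨k + 4, fun V _ G X hP hF hJX => ?_⟩
  have hS := (h8 V G X).1 hF
  rcases h1 V G X hP hS with ⟨n, p, hp, hX⟩ | ⟨n, p, hn, hp, hX⟩ | hN
  · have h11 : {x | ∃ i < n, x = p i} = X := by
      apply Set.Subset.antisymm
      · rintro x ⟨i, hi, rfl⟩
        exact hp.1 i hi
      · exact hX
    have h12 := h10 V G X n p hp.2.1 (by
      intro i hi hin y hy hiy
      obtain ⟨j, hj, rfl⟩ := hX y hy
      rcases (hp.2.2 i (by omega) j hj).1 hiy with h | h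
      · right
        rw [h]
      · left
        rw [show i - 1 = j by omega])
    rw [h11] at h12
    exact RL.mono (by omega) h12
  · exact RL.mono (by omega) (h9 V G X n p hp hX)
  · exact RL.mono (by omega) (hk V G X ((h8 V G X).2 hN) hJX)

end Pool.Agent.MPd439b2.FK
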