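import Pool.Agent.Lib.MP_d439b2_co.FK.Spec

/-!
# MP_d439b2_co, FK/H1: a prime fork-free graph with a hole of length at least seven is this hole (helper76)
-/

set_option autoImplicit false

namespace Pool.Agent.MPd439b2.FK

open Pool.Agent.MPd439b2
open Pool.Agent.MPd439b2.BU
open Pool.Agent.MPd439b2.HC

private theorem h1_conn {V : Type} {G : SimpleGraph V} {p : ℕ → V} (a : ℕ) (m : ℕ) (hm : a + 1 ≤ m)
    (hadj : ∀ i, i + 1 < m → G.Adj (p i) (p (i + 1))) :
    Conn G {x | ∃ i, a ≤ i ∧ i < m ∧ x = p i} := by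
  induction m, hm using Nat.le_induction with
  | base =>
    have h : {x | ∃ i, a ≤ i ∧ i < a + 1 ∧ x = p i} = {p a} := by
      ext x
      constructor
      · rintro ⟨i, h1, h2, rfl⟩
        have : i = a := by omega
        rw [this]
        rfl
      · rintro rfl
        exact ⟨a, le_rfl, by omega, rfl⟩
    rw [h]
    exact Conn.singleton G _
  | succ m hm ih =>
    have h := (ih fun i hi => hadj i (by omega)).insert (v := p m)
      ⟨p (m - 1), ⟨m - 1, by omega, by omega, rfl⟩, by
        have := hadj (m - 1) (by omega)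
        rwa [Nat.sub_add_cancel (by omega)] at this⟩
    have h2 : {x | ∃ i, a ≤ i ∧ i < m + 1 ∧ x = p i} =
        insert (p m) {x | ∃ i, a ≤ i ∧ i < m ∧ x = p i} := by
      ext x
      constructor
      · rintro ⟨i, h1, h2, rfl⟩
        by_cases him : i = m
        · rw [him]
          exact Set.mem_insert _ _
        · exact Set.mem_insert_of_mem _ ⟨i, h1, by omega, rfl⟩
      · rintro (rfl | ⟨i, h1, h2, rfl⟩)
        · exact ⟨m, by omega, by omega, rfl⟩
        · exact ⟨i, h1, by omega, rfl⟩
    rw [h2]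
    exact h

private theorem h1_core {V : Type} {G : SimpleGraph V} {X : Set V} {n : ℕ} {p : ℕ → V} {x : V}
    (hF : SPF G X 5 rF) (hC : IC G X n p) (hn : 7 ≤ n) (hx : x ∈ X) (hd : ∀ i < n, x ≠ p i)
    (h0 : ¬ G.Adj x (p 0)) (h1 : G.Adj x (p 1)) : False := by
  classical
  set Q : Set V := {x | ∃ i, 6 ≤ i ∧ i < n ∧ x = p i} with hQ
  set S : ℕ → Set V := fun i => if i = 6 then Q else {p i} with hS
  have hS6 : S 6 = Q := if_pos rfl
  have hSi : ∀ i, i < 6 → S i = {p i} := by
    intro i hi
    simp only [hS]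
    rw [if_neg (by omega)]
  have hadj : ∀ i, i + 1 < n → G.Adj (p i) (p (i + 1)) := by
    intro i hi
    exact (hC.2.2 i (by omega) (i + 1) hi).2 (Or.inl rfl)
  have hSP : SP G X 7 S (rc [0, 1, 2, 4, 8, 16, 33]) := by
    refine ⟨?_, ?_, ?_, ?_⟩
    · intro i hi
      by_cases h' : i = 6
      · rw [h', hS6]
        rintro x ⟨l, _, hl, rfl⟩
        exact hC.1 l hl
      rw [hSi i (by omega)]
      exact Set.singleton_subset_iff.2 (hC.1 i (by omega))
    · intro i hi
      by_cases h' : i = 6
      · rw [h', hS6]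
        exact h1_conn 6 n (by omega) hadj
      rw [hSi i (by omega)]
      exact Conn.singleton G _
    · intro i hi l hl
      by_cases h' : i = 6
      · rw [h', hS6, hSi l (by omega), Set.disjoint_singleton_right]
        rintro ⟨s, h6, hs, he⟩
        have := hC.2.1 l (by omega) s hs he
        omega
      rw [hSi i (by omega), hSi l (by omega), Set.disjoint_singleton]
      intro he
      have := hC.2.1 i (by omega) l (by omega) he
      omega
    · have hr : ∀ i < 7, ∀ l < i, (rc [0, 1, 2, 4, 8, 16, 33] i l = true ↔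
          l + 1 = i ∨ (l = 0 ∧ i + 1 = 7)) := by
        decide
      intro i hi l hl
      rw [hr i hi l hl]
      by_cases h' : i = 6
      · rw [h', hS6, hSi l (by omega)]
        constructor
        · rintro ⟨x, ⟨s, h6, hs, rfl⟩, y, hy, hxy⟩
          rw [Set.mem_singleton_iff] at hy
          rw [hy] at hxy
          have := (hC.2.2 s hs l (by omega)).1 hxy
          omega
        · intro h''
          have h3 : l = 5 ∨ l = 0 := by omega
          rcases h3 with rfl | rfl
          · exact ⟨p 6, ⟨6, le_rfl, by omega, rfl⟩, p 5, rfl, (hadj 5 (by omega)).symm⟩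
          · refine ⟨p (n - 1), ⟨n - 1, by omega, by omega, rfl⟩, p 0, rfl, ?_⟩
            exact (hC.2.2 (n - 1) (by omega) 0 (by omega)).2 (by omega)
      rw [hSi i (by omega), hSi l (by omega), tch_single, hC.2.2 i (by omega) l (by omega)]
      omega
  have hdis : ∀ j < 7, x ∉ S j := by
    intro j hj
    by_cases h' : j = 6
    · rw [h', hS6]
      rintro ⟨s, _, hs, he⟩
      exact hd s hs he
    · rw [hSi j (by omega)]
      exact hd j (by omega)
  obtain ⟨t, ht, htr, hSP'⟩ := snocV hSP rfl hx hdis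
  have hb0 : t.testBit 0 = false := by
    have h := (htr 0 (by omega)).not
    rw [hSi 0 (by omega), tch_single] at h
    simpa using h.1 h0
  have hb1 : t.testBit 1 = true := by
    have h := htr 1 (by omega)
    rw [hSi 1 (by omega), tch_single] at h
    exact h.1 h1
  exact killF hF hSP' rfl cC7 (tabC7 t (by simpa using ht) hb0 hb1)

theorem fH1 : S_H1 := by
  intro h5 V G X n p hP hF hC hn
  have key : ∀ x ∈ X, (∀ i < n, x ≠ p i) → ∀ a < n, G.Adj x (p a) → ∀ b < n, G.Adj x (p b) := by
    intro x hx hd i hi ti k hk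
    by_contra tk
    obtain ⟨s, hs, ts, ts'⟩ : ∃ s < n, ¬ G.Adj x (p s) ∧ G.Adj x (p ((s + 1) % n)) := by
      by_contra h
      push Not at h
      have hall : ∀ m, ¬ G.Adj x (p ((k + m) % n)) := by
        intro m
        induction m with
        | zero => rwa [Nat.add_zero, Nat.mod_eq_of_lt hk]
        | succ m ih =>
          have h' := h ((k + m) % n) (Nat.mod_lt _ (by omega)) ih
          rwa [Nat.mod_add_mod] at h'
      have h' := hall (n + i - k)
      have he : k + (n + i - k) = i + n := by omega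
      rw [he, Nat.add_mod_right, Nat.mod_eq_of_lt hi] at h'
      exact h' ti
    have hC' := h5.1 V G X n s p hC hs
    refine h1_core hF hC' hn hx (fun a _ => hd _ (Nat.mod_lt _ (by omega))) ?_ ?_
    · show ¬ G.Adj x (p ((0 + s) % n))
      rwa [Nat.zero_add, Nat.mod_eq_of_lt hs]
    · show G.Adj x (p ((1 + s) % n))
      rwa [Nat.add_comm 1 s]
  have hM : Mod G X {x | ∃ i < n, x = p i} := by
    refine ⟨?_, ?_⟩
    · rintro x ⟨i, hi, rfl⟩
      exact hC.1 i hi
    · rintro y hy hyM _ ⟨a, ha, rfl⟩ _ ⟨b, hb, rfl⟩ hya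
      exact key y hy (fun i hi h => hyM ⟨i, hi, h⟩) a ha hya b hb
  rcases hP _ hM with h | h
  · exfalso
    have h2 := h ⟨0, by omega, rfl⟩ ⟨1, by omega, rfl⟩
    have h3 := hC.2.1 0 (by omega) 1 (by omega) h2
    omega
  · intro x hx
    rw [← h] at hx
    exact hx

end Pool.Agent.MPd439b2.FK
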