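import Pool.Agent.Lib.MP_d439b2_co.FK.Spec

/-!
# MP_d439b2_co, FK/L1: exchanging one vertex of the path
-/

set_option autoImplicit false

namespace Pool.Agent.MPd439b2.FK

open Pool.Agent.MPd439b2
open Pool.Agent.MPd439b2.BU
open Pool.Agent.MPd439b2.HC

private theorem fL1_ip {V : Type} {G : SimpleGraph V} {X : Set V} {k : ℕ} {q : ℕ → V}
    (h : IP G X k q) {s : ℕ} {x : V} (hx : x ∈ X) (hne : ∀ i < k, x ≠ q i)
    (ha : ∀ i < k, i ≠ s → (G.Adj x (q i) ↔ i + 1 = s ∨ s + 1 = i)) :
    IP G X k (fun i => if i = s then x else q i) := by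
  obtain ⟨h1, h2, h3⟩ := h
  refine ⟨fun i hi => ?_, fun i hi j hj hij => ?_, fun i hi j hj => ?_⟩
  · show (if i = s then x else q i) ∈ X
    split_ifs
    · exact hx
    · exact h1 i hi
  · by_cases hi2 : i = s
    · by_cases hj2 : j = s
      · rw [hi2, hj2]
      · simp only [hi2, hj2, if_true, if_false] at hij
        exact absurd hij (hne j hj)
    · by_cases hj2 : j = s
      · simp only [hi2, hj2, if_true, if_false] at hij
        exact absurd hij.symm (hne i hi)
      · simp only [hi2, hj2, if_false] at hij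
        exact h2 i hi j hj hij
  · show G.Adj (if i = s then x else q i) (if j = s then x else q j) ↔ i + 1 = j ∨ j + 1 = i
    by_cases hi2 : i = s
    · by_cases hj2 : j = s
      · rw [if_pos hi2, if_pos hj2]
        exact iff_of_false (fun h => h.ne rfl) (by omega)
      · rw [if_pos hi2, if_neg hj2, ha j hj hj2]
        omega
    · by_cases hj2 : j = s
      · rw [if_neg hi2, if_pos hj2, G.adj_comm, ha i hi hi2]
        omega
      · rw [if_neg hi2, if_neg hj2]
        exact h3 i hi j hj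

theorem fL1 : S_L1 := by
  intro V G X k q h
  have hk := h.hk
  refine ⟨fun a ha => ?_, fun b hb => ?_⟩
  · obtain ⟨h1, h2, h3⟩ := ha
    refine ⟨h.prm, h.fk, h.hk, fL1_ip h.ip h1 h2 fun i hi hi0 => ?_, h.np, h.nc⟩
    rw [h3 i hi]
    omega
  · obtain ⟨h1, h2, h3⟩ := hb
    refine ⟨h.prm, h.fk, h.hk, fL1_ip h.ip h1 h2 fun i hi hi0 => ?_, h.np, h.nc⟩
    rw [h3 i hi]
    omega

end Pool.Agent.MPd439b2.FK
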