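import Pool.Agent.Lib.MP_d439b2_co.FK.Spec

/-!
# MP_d439b2_co, FK/L2: adjacencies between the classes
-/

set_option autoImplicit false

namespace Pool.Agent.MPd439b2.FK

open Pool.Agent.MPd439b2
open Pool.Agent.MPd439b2.BU
open Pool.Agent.MPd439b2.HC

namespace fL2Aux

variable {V : Type} {G : SimpleGraph V} {X : Set V} {k : ℕ} {q : ℕ → V}

theorem rv_ne {y : V} (hy : ∀ i < k, y ≠ rv k q i) : ∀ i < k, y ≠ q i := by
  intro i hi
  have h := hy (k - 1 - i) (by omega)
  unfold rv at h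
  rwa [show k - 1 - (k - 1 - i) = i by omega] at h

theorem rv_adj {y : V} {m : ℕ} (hy : ∀ i < k, (G.Adj y (rv k q i) ↔ i < m)) {i : ℕ} (hi : i < k) :
    G.Adj y (q i) ↔ k - 1 - i < m := by
  have h := hy (k - 1 - i) (by omega)
  unfold rv at h
  rwa [show k - 1 - (k - 1 - i) = i by omega] at h

/-- not adjacent exactly to the first vertex -/
theorem no1 (hW : S_W2) (h : LP G X k q) {x : V} (hx : x ∈ X) (hne : ∀ i < k, x ≠ q i)
    (h0 : G.Adj x (q 0)) (h1 : ¬ G.Adj x (q 1)) : False := by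
  have hk := h.hk
  rcases hW V G X k q h x hx hne with h2 | h2 | h2 | h2 | h2 | h2
  · exact absurd ((h2.2.2 0 (by omega)).1 h0) (by omega)
  · exact h1 ((h2.2.2 1 (by omega)).2 (by omega))
  · exact h1 ((h2.2.2 1 (by omega)).2 (by omega))
  · exact h1 ((h2.2.2 1 (by omega)).2 (by omega))
  · exact absurd ((rv_adj h2.2.2 (i := 0) (by omega)).1 h0) (by omega)
  · exact absurd ((rv_adj h2.2.2 (i := 0) (by omega)).1 h0) (by omega)

/-- not adjacent to the second vertex without the first one -/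
theorem no2 (hW : S_W2) (h : LP G X k q) {x : V} (hx : x ∈ X) (hne : ∀ i < k, x ≠ q i)
    (h0 : ¬ G.Adj x (q 0)) (h1 : G.Adj x (q 1)) : False := by
  have hk := h.hk
  rcases hW V G X k q h x hx hne with h2 | h2 | h2 | h2 | h2 | h2
  · exact absurd ((h2.2.2 1 (by omega)).1 h1) (by omega)
  · exact h0 ((h2.2.2 0 (by omega)).2 (by omega))
  · exact h0 ((h2.2.2 0 (by omega)).2 (by omega))
  · exact h0 ((h2.2.2 0 (by omega)).2 (by omega))
  · exact absurd ((rv_adj h2.2.2 (i := 1) (by omega)).1 h1) (by omega)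
  · exact absurd ((rv_adj h2.2.2 (i := 1) (by omega)).1 h1) (by omega)

/-- a vertex which is not adjacent to `q 1` is not adjacent to `TA 2` -/
theorem nadj2 (hW : S_W2) (hL : S_L1) (h : LP G X k q) {y a : V} (hy : y ∈ X)
    (hne : ∀ i < k, y ≠ q i) (h1 : ¬ G.Adj y (q 1)) (ha : a ∈ TA G X k q 2) : ¬ G.Adj y a := by
  intro hya
  refine no1 hW ((hL V G X k q h).1 a ha) hy (fun i hi => ?_) ?_ ?_
  · show y ≠ if i = 0 then a else q i
    split_ifs
    · exact hya.ne
    · exact hne i hi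
  · show G.Adj y (if (0 : ℕ) = 0 then a else q 0)
    rw [if_pos rfl]
    exact hya
  · show ¬ G.Adj y (if (1 : ℕ) = 0 then a else q 1)
    rw [if_neg (by omega)]
    exact h1

/-- a vertex which is not adjacent to `q 0` is not adjacent to `TA 3` -/
theorem nadj3 (hW : S_W2) (hL : S_L1) (h : LP G X k q) {y b : V} (hy : y ∈ X)
    (hne : ∀ i < k, y ≠ q i) (h0 : ¬ G.Adj y (q 0)) (hb : b ∈ TA G X k q 3) : ¬ G.Adj y b := by
  intro hyb
  refine no2 hW ((hL V G X k q h).2 b hb) hy (fun i hi => ?_) ?_ ?_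
  · show y ≠ if i = 1 then b else q i
    split_ifs
    · exact hyb.ne
    · exact hne i hi
  · show ¬ G.Adj y (if (0 : ℕ) = 1 then b else q 0)
    rw [if_neg (by omega)]
    exact h0
  · show G.Adj y (if (1 : ℕ) = 1 then b else q 1)
    rw [if_pos rfl]
    exact hyb

end fL2Aux

open fL2Aux

theorem fL2 (hW : S_W2) (hL : S_L1) : S_L2 := by
  intro V G X k q h
  have hk := h.hk
  refine ⟨?_, ?_, ?_, ?_⟩
  · intro z hz x hx
    obtain ⟨z1, z2, z3⟩ := hz
    have hz0 : ¬ G.Adj z (q 0) := fun h' => absurd ((z3 0 (by omega)).1 h') (by omega)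
    have hz1 : ¬ G.Adj z (q 1) := fun h' => absurd ((z3 1 (by omega)).1 h') (by omega)
    rcases hx with hx | hx
    · exact nadj2 hW hL h z1 z2 hz1 hx
    · exact nadj3 hW hL h z1 z2 hz0 hx
  · intro f hf x hx
    by_contra hfx
    obtain ⟨f1, f2, f3⟩ := hf
    have hx' : x ∈ X ∧ G.Adj x (q 1) ∧ ¬ G.Adj x (q 3) ∧ ¬ G.Adj x (q 5) := by
      rcases hx with hx | hx
      · exact ⟨hx.1, (hx.2.2 1 (by omega)).2 (by omega),
          fun h' => absurd ((hx.2.2 3 (by omega)).1 h') (by omega),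
          fun h' => absurd ((hx.2.2 5 (by omega)).1 h') (by omega)⟩
      · exact ⟨hx.1, (hx.2.2 1 (by omega)).2 (by omega),
          fun h' => absurd ((hx.2.2 3 (by omega)).1 h') (by omega),
          fun h' => absurd ((hx.2.2 5 (by omega)).1 h') (by omega)⟩
    obtain ⟨x1, x2, x3, x4⟩ := hx'
    obtain ⟨p1, p2, p3⟩ := h.ip
    have hnadj : ∀ i j, i < k → j < k → ¬ (i + 1 = j ∨ j + 1 = i) → ¬ G.Adj (q i) (q j) :=
      fun i j hi hj hij h' => hij ((p3 i hi j hj).1 h')
    refine fork5 h.fk f1 (p1 3 (by omega)) (p1 5 (by omega)) (p1 1 (by omega)) x1 (fun h' => ?_)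
      ((f3 3 (by omega)).2 (by omega)) ((f3 5 (by omega)).2 (by omega))
      ((f3 1 (by omega)).2 (by omega)) x2.symm hfx (hnadj 3 5 (by omega) (by omega) (by omega))
      (hnadj 3 1 (by omega) (by omega) (by omega)) (fun h' => x3 h'.symm)
      (hnadj 5 1 (by omega) (by omega) (by omega)) (fun h' => x4 h'.symm)
    exact absurd (p2 3 (by omega) 5 (by omega) h') (by omega)
  · intro y hy x hx
    have hy' : y ∈ X ∧ (∀ i < k, y ≠ q i) ∧ ¬ G.Adj y (q 0) ∧ ¬ G.Adj y (q 1) := by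
      rcases hy with hy | hy
      · exact ⟨hy.1, rv_ne hy.2.1,
          fun h' => absurd ((rv_adj hy.2.2 (i := 0) (by omega)).1 h') (by omega),
          fun h' => absurd ((rv_adj hy.2.2 (i := 1) (by omega)).1 h') (by omega)⟩
      · exact ⟨hy.1, rv_ne hy.2.1,
          fun h' => absurd ((rv_adj hy.2.2 (i := 0) (by omega)).1 h') (by omega),
          fun h' => absurd ((rv_adj hy.2.2 (i := 1) (by omega)).1 h') (by omega)⟩
    obtain ⟨y1, y2, y3, y4⟩ := hy'
    rcases hx with hx | hx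
    · exact nadj2 hW hL h y1 y2 y4 hx
    · exact nadj3 hW hL h y1 y2 y3 hx
  · intro a ha b hb
    by_contra hab
    refine no2 hW ((hL V G X k q h).1 a ha) hb.1 (fun i hi => ?_) ?_ ?_
    · show b ≠ if i = 0 then a else q i
      split_ifs
      · rintro rfl
        exact absurd ((ha.2.2 2 (by omega)).1 ((hb.2.2 2 (by omega)).2 (by omega))) (by omega)
      · exact hb.2.1 i hi
    · show ¬ G.Adj b (if (0 : ℕ) = 0 then a else q 0)
      rw [if_pos rfl]
      exact fun h' => hab h'.symm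
    · show G.Adj b (if (1 : ℕ) = 0 then a else q 1)
      rw [if_neg (by omega)]
      exact (hb.2.2 1 (by omega)).2 (by omega)

end Pool.Agent.MPd439b2.FK
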