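import Pool.Agent.Lib.MP_d439b2_co.FK.Spec

/-!
# MP_d439b2_co, FK/L3: all other vertices are in the four classes
-/

set_option autoImplicit false

namespace Pool.Agent.MPd439b2.FK

open Pool.Agent.MPd439b2
open Pool.Agent.MPd439b2.BU
open Pool.Agent.MPd439b2.HC

theorem fL3 (hW : S_W2) (hL : S_L2) : S_L3 := by
  intro V G X k q h
  have hk := h.hk
  obtain ⟨p1, p2, p3⟩ := h.ip
  obtain ⟨a1, a2, -, -⟩ := hL V G X k q h
  obtain ⟨b1, b2, -, -⟩ := hL V G X k (rv k q) h.rev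
  let P : V → Prop := fun x => (∃ i < k, x = q i) ∨ x ∈ TA G X k q 2 ∨ x ∈ TA G X k q 3 ∨
    x ∈ TA G X k (rv k q) 2 ∨ x ∈ TA G X k (rv k q) 3
  have hmod : Mod G X {x | x ∈ X ∧ P x} := by
    refine ⟨fun x hx => hx.1, fun y hy hyM a ha b hb hya => ?_⟩
    have hyP : ¬ P y := fun h' => hyM ⟨hy, h'⟩
    have hne : ∀ i < k, y ≠ q i := fun i hi h' => hyP (Or.inl ⟨i, hi, h'⟩)
    rcases hW V G X k q h y hy hne with h2 | h2 | h2 | h2 | h2 | h2
    · exfalso
      have h3 : y ∈ TA G X k (rv k q) 0 := by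
        refine ⟨h2.1, fun i hi => h2.2.1 (k - 1 - i) (by omega), fun i hi => ?_⟩
        unfold rv
        rw [h2.2.2 (k - 1 - i) (by omega)]
        omega
      rcases ha.2 with ⟨i, hi, rfl⟩ | h4 | h4 | h4 | h4
      · exact absurd ((h2.2.2 i hi).1 hya) (by omega)
      · exact a1 y h2 a (Or.inl h4) hya
      · exact a1 y h2 a (Or.inr h4) hya
      · exact b1 y h3 a (Or.inl h4) hya
      · exact b1 y h3 a (Or.inr h4) hya
    · have h3 : y ∈ TA G X k (rv k q) k := by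
        refine ⟨h2.1, fun i hi => h2.2.1 (k - 1 - i) (by omega), fun i hi => ?_⟩
        unfold rv
        rw [h2.2.2 (k - 1 - i) (by omega)]
        omega
      rcases hb.2 with ⟨i, hi, rfl⟩ | h4 | h4 | h4 | h4
      · exact (h2.2.2 i hi).2 hi
      · exact a2 y h2 b (Or.inl h4)
      · exact a2 y h2 b (Or.inr h4)
      · exact b2 y h3 b (Or.inl h4)
      · exact b2 y h3 b (Or.inr h4)
    · exact absurd (Or.inr (Or.inl h2)) hyP
    · exact absurd (Or.inr (Or.inr (Or.inl h2))) hyP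
    · exact absurd (Or.inr (Or.inr (Or.inr (Or.inl h2)))) hyP
    · exact absurd (Or.inr (Or.inr (Or.inr (Or.inr h2)))) hyP
  rcases h.prm _ hmod with h1 | h1
  · exfalso
    have h2 : q 0 = q 1 := h1 (show q 0 ∈ {x | x ∈ X ∧ P x} from
      ⟨p1 0 (by omega), Or.inl ⟨0, by omega, rfl⟩⟩)
      (show q 1 ∈ {x | x ∈ X ∧ P x} from ⟨p1 1 (by omega), Or.inl ⟨1, by omega, rfl⟩⟩)
    exact absurd (p2 0 (by omega) 1 (by omega) h2) (by omega)
  · intro x hx
    have h2 : x ∈ {x | x ∈ X ∧ P x} := by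
      rw [h1]
      exact hx
    exact h2.2

end Pool.Agent.MPd439b2.FK
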