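import Pool.Agent.Lib.MP_d439b2_co.FK.Spec

/-!
# MP_d439b2_co, FK/L4: the classes are empty
-/

set_option autoImplicit false

namespace Pool.Agent.MPd439b2.FK

open Pool.Agent.MPd439b2
open Pool.Agent.MPd439b2.BU
open Pool.Agent.MPd439b2.HC

private theorem fL4_rv {V : Type} {G : SimpleGraph V} {k : ℕ} {q : ℕ → V} {y : V} {m : ℕ}
    (hy : ∀ i < k, (G.Adj y (rv k q i) ↔ i < m)) {i : ℕ} (hi : i < k) :
    G.Adj y (q i) ↔ k - 1 - i < m := by
  have h := hy (k - 1 - i) (by omega)
  unfold rv at h
  rwa [show k - 1 - (k - 1 - i) = i by omega] at h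

/-- a module is a set such that all other vertices are complete or anticomplete to it -/
private theorem fL4_mod {V : Type} {G : SimpleGraph V} {X M : Set V} (hM : M ⊆ X)
    (h : ∀ y ∈ X, y ∉ M → (∀ a ∈ M, G.Adj y a) ∨ ∀ a ∈ M, ¬ G.Adj y a) : Mod G X M := by
  refine ⟨hM, fun y hy hyM a ha b hb hya => ?_⟩
  rcases h y hy hyM with h1 | h1
  · exact h1 b hb
  · exact absurd hya (h1 a ha)

theorem fL4 (hL2 : S_L2) (hL3 : S_L3) : S_L4 := by
  intro V G X k q h
  have hk := h.hk
  obtain ⟨p1, p2, p3⟩ := h.ip
  obtain ⟨-, -, a3, a4⟩ := hL2 V G X k q h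
  have hcl := hL3 V G X k q h
  constructor
  · have hmod : Mod G X (insert (q 0) (TA G X k q 2)) := by
      refine fL4_mod ?_ fun y hy hyM => ?_
      · intro x hx
        rcases hx with rfl | hx
        · exact p1 0 (by omega)
        · exact hx.1
      · rcases hcl y hy with ⟨i, hi, rfl⟩ | h2 | h2 | h2 | h2
        · have hi0 : i ≠ 0 := by
            rintro rfl
            exact hyM (Set.mem_insert _ _)
          by_cases hi1 : i = 1
          · subst hi1
            left
            rintro a (rfl | ha)
            · exact (p3 1 hi 0 (by omega)).2 (by omega)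
            · exact ((ha.2.2 1 hi).2 (by omega)).symm
          · right
            rintro a (rfl | ha) hya
            · exact absurd ((p3 i hi 0 (by omega)).1 hya) (by omega)
            · exact absurd ((ha.2.2 i hi).1 hya.symm) (by omega)
        · exact absurd (Set.mem_insert_of_mem _ h2) hyM
        · left
          rintro a (rfl | ha)
          · exact (h2.2.2 0 (by omega)).2 (by omega)
          · exact (a4 a ha y h2).symm
        · right
          rintro a (rfl | ha) hya
          · exact absurd ((fL4_rv h2.2.2 (i := 0) (by omega)).1 hya) (by omega)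
          · exact a3 y (Or.inl h2) a (Or.inl ha) hya
        · right
          rintro a (rfl | ha) hya
          · exact absurd ((fL4_rv h2.2.2 (i := 0) (by omega)).1 hya) (by omega)
          · exact a3 y (Or.inr h2) a (Or.inl ha) hya
    have hsub : (insert (q 0) (TA G X k q 2)).Subsingleton := by
      refine (h.prm _ hmod).resolve_right fun h' => ?_
      have h1 : q 1 ∈ insert (q 0) (TA G X k q 2) := by
        rw [h']
        exact p1 1 (by omega)
      rcases h1 with h1 | h1
      · exact absurd (p2 1 (by omega) 0 (by omega) h1) (by omega)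
      · exact h1.2.1 1 (by omega) rfl
    rw [Set.eq_empty_iff_forall_notMem]
    intro x hx
    exact hx.2.1 0 (by omega) (hsub (Set.mem_insert_of_mem _ hx) (Set.mem_insert _ _))
  · have hmod : Mod G X (insert (q 1) (TA G X k q 3)) := by
      refine fL4_mod ?_ fun y hy hyM => ?_
      · intro x hx
        rcases hx with rfl | hx
        · exact p1 1 (by omega)
        · exact hx.1
      · rcases hcl y hy with ⟨i, hi, rfl⟩ | h2 | h2 | h2 | h2
        · have hi0 : i ≠ 1 := by
            rintro rfl
            exact hyM (Set.mem_insert _ _)
          by_cases hi1 : i = 0 ∨ i = 2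
          · left
            rintro a (rfl | ha)
            · exact (p3 i hi 1 (by omega)).2 (by omega)
            · exact ((ha.2.2 i hi).2 (by omega)).symm
          · right
            rintro a (rfl | ha) hya
            · exact absurd ((p3 i hi 1 (by omega)).1 hya) (by omega)
            · exact absurd ((ha.2.2 i hi).1 hya.symm) (by omega)
        · left
          rintro a (rfl | ha)
          · exact (h2.2.2 1 (by omega)).2 (by omega)
          · exact a4 y h2 a ha
        · exact absurd (Set.mem_insert_of_mem _ h2) hyM
        · right
          rintro a (rfl | ha) hya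
          · exact absurd ((fL4_rv h2.2.2 (i := 1) (by omega)).1 hya) (by omega)
          · exact a3 y (Or.inl h2) a (Or.inr ha) hya
        · right
          rintro a (rfl | ha) hya
          · exact absurd ((fL4_rv h2.2.2 (i := 1) (by omega)).1 hya) (by omega)
          · exact a3 y (Or.inr h2) a (Or.inr ha) hya
    have hsub : (insert (q 1) (TA G X k q 3)).Subsingleton := by
      refine (h.prm _ hmod).resolve_right fun h' => ?_
      have h1 : q 0 ∈ insert (q 1) (TA G X k q 3) := by
        rw [h']
        exact p1 0 (by omega)
      rcases h1 with h1 | h1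
      · exact absurd (p2 0 (by omega) 1 (by omega) h1) (by omega)
      · exact h1.2.1 0 (by omega) rfl
    rw [Set.eq_empty_iff_forall_notMem]
    intro x hx
    exact hx.2.1 1 (by omega) (hsub (Set.mem_insert_of_mem _ hx) (Set.mem_insert _ _))

end Pool.Agent.MPd439b2.FK
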