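import Pool.Agent.Lib.MP_d439b2_co.FK.Spec

/-!
# MP_d439b2_co, FK/T1: from bounded clique-width to layouts of subsets (helper76)
-/

set_option autoImplicit false

namespace Pool.Agent.MPd439b2.FK

open Pool.Agent.MPd439b2
open Pool.Agent.MPd439b2.BU
open Pool.Agent.MPd439b2.HC

namespace fT1Aux

variable {V W : Type}

theorem conn_image {G : SimpleGraph V} {Y : Set V} {B : Set Y} (h : Conn (G.induce Y) B) :
    Conn G (Subtype.val '' B) := by
  refine ⟨h.1.image _, fun C hC hne hne' => ?_⟩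
  have h1 : Subtype.val ⁻¹' C ⊆ B := by
    intro x hx
    obtain ⟨y, hy, hyx⟩ := hC hx
    rwa [← Subtype.ext hyx]
  have h2 : (Subtype.val ⁻¹' C : Set Y).Nonempty := by
    obtain ⟨c, hc⟩ := hne
    obtain ⟨y, _, rfl⟩ := hC hc
    exact ⟨y, hc⟩
  have h3 : Subtype.val ⁻¹' C ≠ B := by
    intro h2
    apply hne'
    apply Set.Subset.antisymm hC
    rintro _ ⟨y, hy, rfl⟩
    rw [← h2] at hy
    exact hy
  obtain ⟨b, hb, a, ha, hab⟩ := h.2 (Subtype.val ⁻¹' C) h1 h2 h3
  exact ⟨b, hb, a, ⟨⟨a, ha.1, rfl⟩, ha.2⟩, hab⟩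

theorem ims_image {H : SimpleGraph W} {G : SimpleGraph V} {Y : Set V}
    (h : IsIndMinor H (G.induce Y)) : IMS H G Y := by
  obtain ⟨B, _, h2, h3, h4⟩ := ims_univ_iff.2 h
  refine ⟨fun w => Subtype.val '' B w, ?_, fun w => conn_image (h2 w), ?_, ?_⟩
  · rintro w _ ⟨x, _, rfl⟩
    exact x.2
  · intro w w' hw
    exact (Set.disjoint_image_iff Subtype.val_injective).2 (h3 w w' hw)
  · intro w w' hw
    rw [h4 w w' hw]
    constructor
    · rintro ⟨a, ha, b, hb, hab⟩
      exact ⟨a, ⟨a, ha, rfl⟩, b, ⟨b, hb, rfl⟩, hab⟩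
    · rintro ⟨_, ⟨a, ha, rfl⟩, _, ⟨b, hb, rfl⟩, hab⟩
      exact ⟨a, ha, b, hb, hab⟩

theorem rows {G : SimpleGraph V} {Y : Set V} {k : ℕ} {A : Set Y}
    (h : (Types (G.induce Y) A).encard ≤ k) :
    (Rw G Y (Subtype.val '' A)).encard ≤ (k + 1 : ℕ) := by
  have h1 : Rw G Y (Subtype.val '' A) ⊆
      insert ∅ ((fun T : Set Y => (Subtype.val '' T : Set V)) '' Types (G.induce Y) A) := by
    rintro T ⟨_, ⟨a, ha, rfl⟩, rfl⟩
    by_cases he : (G.neighborSet a ∩ Y) \ (Subtype.val '' A) = ∅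
    · rw [he]
      exact Set.mem_insert _ _
    · right
      have h2 : (G.neighborSet a ∩ Y) \ (Subtype.val '' A) =
          Subtype.val '' ((G.induce Y).neighborSet a \ A) := by
        ext x
        constructor
        · rintro ⟨⟨h3, h4⟩, h5⟩
          exact ⟨⟨x, h4⟩, ⟨h3, fun h6 => h5 ⟨_, h6, rfl⟩⟩, rfl⟩
        · rintro ⟨y, ⟨h3, h4⟩, rfl⟩
          refine ⟨⟨h3, y.2⟩, ?_⟩
          rintro ⟨z, hz, hzy⟩
          rw [Subtype.ext hzy] at hz
          exact h4 hz
      refine ⟨(G.induce Y).neighborSet a \ A, ⟨?_, a, ha, rfl⟩, h2.symm⟩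
      have h3 := Set.nonempty_iff_ne_empty.2 he
      rw [h2] at h3
      exact Set.image_nonempty.1 h3
  calc (Rw G Y (Subtype.val '' A)).encard
      ≤ (insert ∅ ((fun T : Set Y => (Subtype.val '' T : Set V)) ''
          Types (G.induce Y) A)).encard := Set.encard_le_encard h1
    _ ≤ ((fun T : Set Y => (Subtype.val '' T : Set V)) '' Types (G.induce Y) A).encard + 1 :=
        Set.encard_insert_le _ _
    _ ≤ (k : ℕ∞) + 1 := by
        gcongr
        exact (Set.encard_image_le _ _).trans h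
    _ = (k + 1 : ℕ) := by push_cast; rfl

theorem lay {G : SimpleGraph V} {Y : Set V} {k : ℕ} {A : Set Y} (h : Lay (G.induce Y) k A) :
    RL G Y (k + 1) (Subtype.val '' A) := by
  induction h with
  | empty =>
    rw [Set.image_empty]
    exact LT.empty
  | single v _ =>
    rw [Set.image_singleton]
    exact LT.single _
  | union _ _ hd hk ihA ihB =>
    have h1 := rows hk
    rw [Set.image_union] at h1 ⊢
    exact LT.union ihA ihB ((Set.disjoint_image_iff Subtype.val_injective).2 hd) h1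

end fT1Aux

theorem fT1 : S_T1 := by
  intro hY8 W W' H J hB
  obtain ⟨c, hc⟩ := hB
  refine ⟨c + 1, fun V _ G Y hH hJ => ?_⟩
  rcases Y.eq_empty_or_nonempty with rfl | hne
  · exact LT.empty
  · have : Nonempty Y := hne.to_subtype
    have h1 := hc Y (G.induce Y) (fun h => hH (fT1Aux.ims_image h))
      (fun h => hJ (fT1Aux.ims_image h))
    have h2 := fT1Aux.lay (hY8 _ _ _ h1)
    rw [Set.image_univ, Subtype.range_val] at h2
    exact h2

end Pool.Agent.MPd439b2.FK
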