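import Pool.Agent.Lib.MP_d439b2_co.FK.Spec

/-!
# MP_d439b2_co, FK: T2, prime sets are enough
-/

set_option autoImplicit false

namespace Pool.Agent.MPd439b2.FK

open Pool.Agent.MPd439b2 Pool.Agent.MPd439b2.BU Pool.Agent.MPd439b2.HC

theorem fT2 : S_T2 := by
  rintro hR2 hR3 hCW W W' H J ⟨K, hK⟩
  refine ⟨3 * (K + 1 + 1), ?_⟩
  intro V _ _ G hH hJ
  refine hCW V G (K + 1) (hR3.2 V G (K + 1) (by omega) (hR2 V G Set.univ (K + 1) ?_))
  intro Y _ hY
  have h1 : RL G Y K Y := hK V G Y hY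
    (fun h => hH (ims_univ_iff.mp (h.mono (Set.subset_univ _))))
    (fun h => hJ (ims_univ_iff.mp (h.mono (Set.subset_univ _))))
  exact LT.mono (fun A hA => hA.trans (by exact_mod_cast Nat.le_succ K)) h1

end Pool.Agent.MPd439b2.FK
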