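import Pool.Agent.Lib.MP_d439b2_co.FK.Spec

/-!
# MP_d439b2_co, FK: T3, the two patterns
-/

set_option autoImplicit false

namespace Pool.Agent.MPd439b2.FK

open Pool.Agent.MPd439b2 Pool.Agent.MPd439b2.BU Pool.Agent.MPd439b2.HC

namespace fT3Aux

variable {V : Type} {G : SimpleGraph V}

/-- the model of the fork from five sets: the edge `P Q`, `X` and `Y` on `P`, `Z` on `Q` -/
theorem model {A P Q X Y Z : Set V} (sP : P ⊆ A) (sQ : Q ⊆ A) (sX : X ⊆ A) (sY : Y ⊆ A)
    (sZ : Z ⊆ A) (cP : Conn G P) (cQ : Conn G Q)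
    (cX : Conn G X) (cY : Conn G Y) (cZ : Conn G Z)
    (dPQ : Disjoint P Q) (dPX : Disjoint P X) (dQX : Disjoint Q X)
    (dPY : Disjoint P Y) (dQY : Disjoint Q Y) (dPZ : Disjoint P Z) (dQZ : Disjoint Q Z)
    (dXY : Disjoint X Y) (dXZ : Disjoint X Z) (dYZ : Disjoint Y Z)
    (tPQ : Tch G P Q)
    (tPX : Tch G P X) (tQX : ¬ Tch G Q X)
    (tPY : Tch G P Y) (tQY : ¬ Tch G Q Y)
    (tPZ : ¬ Tch G P Z) (tQZ : Tch G Q Z)
    (tXY : ¬ Tch G X Y) (tXZ : ¬ Tch G X Z) (tYZ : ¬ Tch G Y Z) :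
    IMS (KA 2 3 ![{0}, {0}, {1}]) G A := by
  have hd : ∀ i j : Fin 2, i ≠ j → Disjoint ((![P, Q] : Fin 2 → Set V) i)
      ((![P, Q] : Fin 2 → Set V) j) := by
    intro i j hij
    fin_cases i <;> fin_cases j <;> first
      | exact absurd rfl hij
      | assumption
      | (apply Disjoint.symm; assumption)
  have ht : ∀ i j : Fin 2, i ≠ j → Tch G ((![P, Q] : Fin 2 → Set V) i)
      ((![P, Q] : Fin 2 → Set V) j) := by
    intro i j hij
    fin_cases i <;> fin_cases j <;> first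
      | exact absurd rfl hij
      | assumption
      | (apply Tch.symm; assumption)
  have hd' : ∀ (i : Fin 2) (j : Fin 3), Disjoint ((![P, Q] : Fin 2 → Set V) i)
      ((![X, Y, Z] : Fin 3 → Set V) j) := by
    intro i j
    fin_cases i <;> fin_cases j <;> assumption
  have ht' : ∀ (i : Fin 2) (j : Fin 3), i ∈ (![{0}, {0}, {1}] : Fin 3 → Set (Fin 2)) j ↔
      Tch G ((![P, Q] : Fin 2 → Set V) i) ((![X, Y, Z] : Fin 3 → Set V) j) := by
    intro i j
    fin_cases i <;> fin_cases j <;> simp <;> assumption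
  have hdd : ∀ i j : Fin 3, i ≠ j → Disjoint ((![X, Y, Z] : Fin 3 → Set V) i)
      ((![X, Y, Z] : Fin 3 → Set V) j) := by
    intro i j hij
    fin_cases i <;> fin_cases j <;> first
      | exact absurd rfl hij
      | assumption
      | (apply Disjoint.symm; assumption)
  have htt : ∀ i j : Fin 3, i ≠ j → ¬ Tch G ((![X, Y, Z] : Fin 3 → Set V) i)
      ((![X, Y, Z] : Fin 3 → Set V) j) := by
    intro i j hij
    fin_cases i <;> fin_cases j <;> first
      | exact absurd rfl hij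
      | assumption
      | (intro h; exact tXY h.symm)
      | (intro h; exact tXZ h.symm)
      | (intro h; exact tYZ h.symm)
  refine ⟨Sum.elim ![P, Q] ![X, Y, Z], ?_, ?_, ?_, ?_⟩
  · rintro (w | w) <;> fin_cases w <;> assumption
  · rintro (w | w) <;> fin_cases w <;> assumption
  · rintro (w | w) (w' | w') hw
    · exact hd w w' fun h => hw (congrArg _ h)
    · exact hd' w w'
    · exact (hd' w' w).symm
    · exact hdd w w' fun h => hw (congrArg _ h)
  · rintro (w | w) (w' | w') hw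
    · have h : w ≠ w' := fun h => hw (congrArg _ h)
      exact iff_of_true h (ht w w' h)
    · exact ht' w w'
    · exact (ht' w' w).trans tch_comm
    · have h : w ≠ w' := fun h => hw (congrArg _ h)
      exact iff_of_false (fun h => h) (htt w w' h)

/-- (1) -/
theorem part1 {X : Set V} (h : ¬ IMS (KA 2 3 ![{0}, {0}, {1}]) G X) : SPF G X 5 rF := by
  intro S hS
  have t : ∀ i j, i < 5 → j < i → rF i j = true → Tch G (S i) (S j) := fun i j hi hj hr =>
    (hS.tch i hi j hj).2 hr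
  have n : ∀ i j, i < 5 → j < i → rF i j = false → ¬ Tch G (S i) (S j) := fun i j hi hj hr ht => by
    have := (hS.tch i hi j hj).1 ht
    rw [hr] at this
    exact absurd this (by decide)
  have d : ∀ i j, i < 5 → j < i → Disjoint (S i) (S j) := fun i j hi hj => hS.dis i hi j hj
  refine h (model (P := S 0) (Q := S 3) (X := S 1) (Y := S 2) (Z := S 4)
    (hS.sub 0 (by omega)) (hS.sub 3 (by omega)) (hS.sub 1 (by omega)) (hS.sub 2 (by omega))
    (hS.sub 4 (by omega)) (hS.conn 0 (by omega)) (hS.conn 3 (by omega)) (hS.conn 1 (by omega))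
    (hS.conn 2 (by omega)) (hS.conn 4 (by omega))
    (d 3 0 (by omega) (by omega)).symm (d 1 0 (by omega) (by omega)).symm
    (d 3 1 (by omega) (by omega))
    (d 2 0 (by omega) (by omega)).symm (d 3 2 (by omega) (by omega))
    (d 4 0 (by omega) (by omega)).symm (d 4 3 (by omega) (by omega)).symm
    (d 2 1 (by omega) (by omega)).symm (d 4 1 (by omega) (by omega)).symm
    (d 4 2 (by omega) (by omega)).symm
    (t 3 0 (by omega) (by omega) (by decide)).symm
    (t 1 0 (by omega) (by omega) (by decide)).symm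
    (n 3 1 (by omega) (by omega) (by decide))
    (t 2 0 (by omega) (by omega) (by decide)).symm
    (n 3 2 (by omega) (by omega) (by decide))
    (fun h => n 4 0 (by omega) (by omega) (by decide) h.symm)
    (t 4 3 (by omega) (by omega) (by decide)).symm
    (fun h => n 2 1 (by omega) (by omega) (by decide) h.symm)
    (fun h => n 4 1 (by omega) (by omega) (by decide) h.symm)
    (fun h => n 4 2 (by omega) (by omega) (by decide) h.symm))

/-- (2) -/
theorem part2 {X : Set V} (h : NoK G X) : ¬ IMS (KA 2 2 ![∅, ∅]) G X := by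
  rintro ⟨B, hs, hc, hd, ht⟩
  have h01 : (Sum.inl 0 : Fin 2 ⊕ Fin 2) ≠ Sum.inl 1 := by decide
  have hr : (Sum.inr 0 : Fin 2 ⊕ Fin 2) ≠ Sum.inr 1 := by decide
  have hlr : ∀ i j : Fin 2, (Sum.inl i : Fin 2 ⊕ Fin 2) ≠ Sum.inr j := fun i j h => by simp at h
  obtain ⟨a, ha, b, hb, hab⟩ := (ht _ _ h01).1 (show (0 : Fin 2) ≠ 1 by decide)
  obtain ⟨x, hx⟩ := (hc (Sum.inr 0)).1
  obtain ⟨y, hy⟩ := (hc (Sum.inr 1)).1
  have hxy : x ≠ y := by
    rintro rfl
    exact Set.disjoint_left.mp (hd _ _ hr) hx hy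
  have nxy : ¬ G.Adj x y := fun h1 => (ht _ _ hr).2 ⟨x, hx, y, hy, h1⟩
  have key : ∀ (i j : Fin 2), ∀ u ∈ B (Sum.inl i), ∀ v ∈ B (Sum.inr j), ¬ G.Adj u v := by
    intro i j u hu v hv huv
    have h1 := (ht _ _ (hlr i j)).2 ⟨u, hu, v, hv, huv⟩
    have h2 : i ∈ (![∅, ∅] : Fin 2 → Set (Fin 2)) j := h1
    fin_cases j <;> exact h2
  exact h a (hs _ ha) b (hs _ hb) x (hs _ hx) y (hs _ hy) hab hxy nxy
    (key _ _ a ha x hx) (key _ _ a ha y hy) (key _ _ b hb x hx) (key _ _ b hb y hy)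

end fT3Aux

theorem fT3 : S_T3 := fun _ _ _ => ⟨fT3Aux.part1, fT3Aux.part2⟩

end Pool.Agent.MPd439b2.FK
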