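import Pool.Agent.Lib.MP_d439b2_co.FK.Spec

/-!
# MP_d439b2_co, FK/W1: traces on an induced path with six vertices
-/

set_option autoImplicit false

namespace Pool.Agent.MPd439b2.FK

open Pool.Agent.MPd439b2 Pool.Agent.MPd439b2.BU Pool.Agent.MPd439b2.HC

theorem fW1 : S_W1 := by
  intro V G X p x t hF hC hp hx hne ht
  have hS : SP G X 6 (fun i => {p i}) (rc [0, 1, 2, 4, 8, 16]) := by
    refine ⟨fun i hi => Set.singleton_subset_iff.2 (hp.1 i hi), fun i _ => Conn.singleton G _,
      fun i hi j hj => ?_, fun i hi j hj => ?_⟩
    · rw [Set.disjoint_singleton]
      intro h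
      have := hp.2.1 i hi j (by omega) h
      omega
    · rw [tch_single, hp.2.2 i hi j (by omega)]
      interval_cases i <;> interval_cases j <;> decide
  obtain ⟨t', ht', htr, hS'⟩ := snocV hS rfl hx (fun j hj => by
    rw [Set.mem_singleton_iff]
    exact hne j hj)
  have htt : t' = t := by
    apply Nat.eq_of_testBit_eq
    intro j
    by_cases hj : j < 6
    · have h1 := htr j hj
      rw [tch_single, ht.2 j hj] at h1
      rw [Bool.eq_iff_iff]
      exact h1.symm
    · have h2 : 2 ^ 6 ≤ 2 ^ j := Nat.pow_le_pow_right (by norm_num) (by omega)
      rw [Nat.testBit_lt_two_pow (ht'.trans_le h2), Nat.testBit_lt_two_pow (ht.1.trans_le h2)]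
  subst htt
  by_cases h33 : t' = 33
  · exfalso
    subst h33
    have hb : ∀ j < 6, (G.Adj x (p j) ↔ j = 0 ∨ j = 5) := by
      intro j hj
      rw [ht.2 j hj]
      interval_cases j <;> decide
    refine hC 7 le_rfl (fun i => if i = 6 then x else p i) ⟨?_, ?_, ?_⟩
    · intro i hi
      by_cases h : i = 6
      · simp only [h, if_true]
        exact hx
      · simp only [h, if_false]
        exact hp.1 i (by omega)
    · intro i hi j hj hij
      by_cases h : i = 6
      · by_cases h' : j = 6
        · omega
        · simp only [h, h', if_true, if_false] at hij
          exact absurd hij (hne j (by omega))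
      · by_cases h' : j = 6
        · simp only [h, h', if_true, if_false] at hij
          exact absurd hij.symm (hne i (by omega))
        · simp only [h, h', if_false] at hij
          exact hp.2.1 i (by omega) j (by omega) hij
    · intro i hi j hj
      by_cases h : i = 6
      · by_cases h' : j = 6
        · simp only [h, h', if_true]
          exact iff_of_false (G.irrefl) (by omega)
        · have e1 : (if i = 6 then x else p i) = x := if_pos h
          have e2 : (if j = 6 then x else p j) = p j := if_neg h'
          change G.Adj (if i = 6 then x else p i) (if j = 6 then x else p j) ↔ _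
          rw [e1, e2, hb j (by omega)]
          clear e1 e2
          omega
      · by_cases h' : j = 6
        · have e1 : (if i = 6 then x else p i) = p i := if_neg h
          have e2 : (if j = 6 then x else p j) = x := if_pos h'
          change G.Adj (if i = 6 then x else p i) (if j = 6 then x else p j) ↔ _
          rw [e1, e2, G.adj_comm, hb i (by omega)]
          clear e1 e2
          omega
        · simp only [h, h', if_false]
          rw [hp.2.2 i (by omega) j (by omega)]
          omega
  · by_contra hcon
    refine killF hF hS' rfl cP6 (tabP6 t' ht' ?_)
    intro h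
    simp only [List.mem_cons, List.not_mem_nil, or_false] at h hcon
    omega

end Pool.Agent.MPd439b2.FK
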