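import Pool.Agent.Lib.MP_d439b2_co.FK.Spec

/-!
# MP_d439b2_co, FK, W2: the traces on a longest induced path
-/

set_option autoImplicit false

namespace Pool.Agent.MPd439b2.FK

open Pool.Agent.MPd439b2
open Pool.Agent.MPd439b2.BU
open Pool.Agent.MPd439b2.HC

/-! ### the combinatorial part -/

/-- the allowed words of length six -/
private def W8 (f : ℕ → Prop) : Prop :=
  ∃ t, t ∈ [0, 1, 3, 7, 32, 48, 56, 63] ∧ ∀ j < 6, (f j ↔ Nat.testBit t j = true)

private theorem W8.nogap {f : ℕ → Prop} (h : W8 f) {a c b : ℕ} (hac : a < c) (hcb : c < b)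
    (hb : b < 6) (fa : f a) (fc : ¬ f c) (fb : f b) : False := by
  obtain ⟨t, ht, hf⟩ := h
  rw [hf a (by omega)] at fa
  rw [hf c (by omega)] at fc
  rw [hf b hb] at fb
  have key : ∀ t ∈ [0, 1, 3, 7, 32, 48, 56, 63], ∀ a < 6, ∀ c < 6, ∀ b < 6,
      ¬ (a < c ∧ c < b ∧ Nat.testBit t a = true ∧ ¬ Nat.testBit t c = true ∧
        Nat.testBit t b = true) := by
    decide +kernel
  exact key t ht a (by omega) c (by omega) b hb ⟨hac, hcb, fa, fc, fb⟩

private theorem W8.long {f : ℕ → Prop} (h : W8 f) (f0 : f 0) (f3 : f 3) : f 5 := by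
  obtain ⟨t, ht, hf⟩ := h
  rw [hf 0 (by omega)] at f0
  rw [hf 3 (by omega)] at f3
  rw [hf 5 (by omega)]
  have key : ∀ t ∈ [0, 1, 3, 7, 32, 48, 56, 63],
      Nat.testBit t 0 = true → Nat.testBit t 3 = true → Nat.testBit t 5 = true := by
    decide +kernel
  exact key t ht f0 f3

private theorem W8.start {f : ℕ → Prop} (h : W8 f) (f0 : ¬ f 0) (f1 : f 1) : False := by
  obtain ⟨t, ht, hf⟩ := h
  rw [hf 0 (by omega)] at f0
  rw [hf 1 (by omega)] at f1
  have key : ∀ t ∈ [0, 1, 3, 7, 32, 48, 56, 63],
      ¬ Nat.testBit t 0 = true → Nat.testBit t 1 = true → False := by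
    decide +kernel
  exact key t ht f0 f1

private theorem W8.ends {f : ℕ → Prop} (h : W8 f) (f0 : ¬ f 0) (f5 : ¬ f 5) {a : ℕ} (ha : a < 6)
    (fa : f a) : False := by
  obtain ⟨t, ht, hf⟩ := h
  rw [hf 0 (by omega)] at f0
  rw [hf 5 (by omega)] at f5
  rw [hf a ha] at fa
  have key : ∀ t ∈ [0, 1, 3, 7, 32, 48, 56, 63], ∀ a < 6,
      ¬ Nat.testBit t 0 = true → ¬ Nat.testBit t 5 = true → Nat.testBit t a = true → False := by
    decide +kernel
  exact key t ht a ha f0 f5 fa

private theorem W8.rev {f g : ℕ → Prop} (h : W8 f) (hg : ∀ j < 6, (g j ↔ f (5 - j))) : W8 g := by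
  obtain ⟨t, ht, hf⟩ := h
  have key : ∀ t ∈ [0, 1, 3, 7, 32, 48, 56, 63], ∃ u ∈ [0, 1, 3, 7, 32, 48, 56, 63], ∀ j < 6,
      (Nat.testBit t (5 - j) = true ↔ Nat.testBit u j = true) := by
    decide +kernel
  obtain ⟨u, hu, htu⟩ := key t ht
  exact ⟨u, hu, fun j hj => (hg j hj).trans ((hf (5 - j) (by omega)).trans (htu j hj))⟩

private theorem w2_nogap {k : ℕ} (hk : 6 ≤ k) {P : ℕ → Prop}
    (hW : ∀ s, s + 6 ≤ k → W8 fun j => P (s + j))
    (hC : ∀ i j, i + 5 ≤ j → j < k → P i → P j → (∀ m, i < m → m < j → ¬ P m) → False) :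
    ∀ n i m j, j = i + n → i < m → m < j → j < k → P i → ¬ P m → P j → False := by
  intro n
  induction n using Nat.strong_induction_on with
  | _ n ih =>
    intro i m j hn him hmj hjk hPi hPm hPj
    by_cases hex : ∃ m', i < m' ∧ m' < j ∧ P m'
    · obtain ⟨m', h1, h2, h3⟩ := hex
      rcases Nat.lt_trichotomy m' m with h | h | h
      · exact ih (j - m') (by omega) m' m j (by omega) h hmj hjk h3 hPm hPj
      · subst h
        exact hPm h3
      · exact ih (m' - i) (by omega) i m m' (by omega) him h (by omega) hPi hPm h3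
    · have hno : ∀ m, i < m → m < j → ¬ P m := fun m' h1 h2 h3 => hex ⟨m', h1, h2, h3⟩
      rcases Nat.lt_or_ge j (i + 5) with h | h
      · obtain ⟨s, hs1, hs2, hs3⟩ : ∃ s, s + 6 ≤ k ∧ s ≤ i ∧ j < s + 6 := by
          rcases Nat.le_total i (k - 6) with h' | h'
          · exact ⟨i, by omega, le_rfl, by omega⟩
          · exact ⟨k - 6, by omega, h', by omega⟩
        have e1 : s + (i - s) = i := by omega
        have e2 : s + (m - s) = m := by omega
        have e3 : s + (j - s) = j := by omega
        exact (hW s hs1).nogap (a := i - s) (c := m - s) (b := j - s) (by omega) (by omega)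
          (by omega) (by simpa only [e1] using hPi) (by simpa only [e2] using hPm)
          (by simpa only [e3] using hPj)
      · exact hC i j h hjk hPi hPj hno

private theorem w2_left {k : ℕ} (hk : 6 ≤ k) {P : ℕ → Prop}
    (hW : ∀ s, s + 6 ≤ k → W8 fun j => P (s + j))
    (hC : ∀ i j, i + 5 ≤ j → j < k → P i → P j → (∀ m, i < m → m < j → ¬ P m) → False)
    (hE : P 0 → (∀ i, 1 ≤ i → i < k → ¬ P i) → False) (h0 : P 0) :
    (∀ i < k, (P i ↔ i < k)) ∨ (∀ i < k, (P i ↔ i < 2)) ∨ ∀ i < k, (P i ↔ i < 3) := by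
  classical
  by_cases hall : ∀ i < k, P i
  · exact Or.inl fun i hi => iff_of_true (hall i hi) hi
  · have hex : ∃ m, m < k ∧ ¬ P m := by
      by_contra hcon
      exact hall fun i hi => by
        by_contra h
        exact hcon ⟨i, hi, h⟩
    obtain ⟨m, ⟨hm1, hm2⟩, hmin⟩ : ∃ m, (m < k ∧ ¬ P m) ∧ ∀ i < m, P i := by
      refine ⟨Nat.find hex, Nat.find_spec hex, fun i hi => ?_⟩
      have h1 := Nat.find_min hex hi
      by_contra h2
      exact h1 ⟨by have := (Nat.find_spec hex).1; omega, h2⟩
    have hm0 : 1 ≤ m := by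
      by_contra h
      have : m = 0 := by omega
      subst this
      exact hm2 h0
    have hrest : ∀ i, m < i → i < k → ¬ P i := fun i hi hik hPi =>
      w2_nogap hk hW hC (i - 0) 0 m i (by omega) (by omega) hi hik h0 hm2 hPi
    have hT : ∀ i < k, (P i ↔ i < m) := by
      intro i hi
      rcases Nat.lt_trichotomy i m with h | h | h
      · exact iff_of_true (hmin i h) h
      · subst h
        exact iff_of_false hm2 (lt_irrefl _)
      · exact iff_of_false (hrest i h hi) (by omega)
    have hm4 : m < 4 := by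
      by_contra hcon
      have h1 := (hW (m - 5) (by omega)).long (by
        change P (m - 5 + 0)
        rw [hT _ (by omega)]
        omega) (by
        change P (m - 5 + 3)
        rw [hT _ (by omega)]
        omega)
      have h2 : P (m - 5 + 5) := h1
      rw [hT _ (by omega)] at h2
      omega
    have hm1' : m ≠ 1 := by
      intro h
      subst h
      exact hE h0 fun i hi hik => by
        rw [hT i hik]
        omega
    rcases (show m = 2 ∨ m = 3 by omega) with h | h
    · subst h
      exact Or.inr (Or.inl hT)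
    · subst h
      exact Or.inr (Or.inr hT)

private theorem w2_mid {k : ℕ} (hk : 6 ≤ k) {P : ℕ → Prop}
    (hW : ∀ s, s + 6 ≤ k → W8 fun j => P (s + j)) (h0 : ¬ P 0) (h1 : ¬ P (k - 1)) :
    ∀ i < k, ¬ P i := by
  classical
  intro i₀ hi₀ hPi₀
  have hex : ∃ i, P i := ⟨i₀, hPi₀⟩
  obtain ⟨i, hPi, hik, hmin⟩ : ∃ i, P i ∧ i < k ∧ ∀ j < i, ¬ P j :=
    ⟨Nat.find hex, Nat.find_spec hex, lt_of_le_of_lt (Nat.find_min' hex hPi₀) hi₀,
      fun j hj => Nat.find_min hex hj⟩
  have hi1 : 1 ≤ i := by
    by_contra h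
    have : i = 0 := by omega
    subst this
    exact h0 hPi
  rcases Nat.lt_or_ge k (i + 5) with h | h
  · refine (hW (k - 6) (by omega)).ends (a := i - (k - 6)) ?_ ?_ (by omega) ?_
    · exact hmin _ (by omega)
    · have e : k - 6 + 5 = k - 1 := by omega
      simpa only [e] using h1
    · have e : k - 6 + (i - (k - 6)) = i := by omega
      simpa only [e] using hPi
  · refine (hW (i - 1) (by omega)).start ?_ ?_
    · exact hmin _ (by omega)
    · have e : i - 1 + 1 = i := by omega
      simpa only [e] using hPi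

/-! ### the geometric part -/

section

variable {V : Type} {G : SimpleGraph V} {X : Set V} {k : ℕ} {q : ℕ → V}

private theorem w2_win (hW1 : S_W1) (h : LP G X k q) {x : V} (hx : x ∈ X)
    (hne : ∀ i < k, x ≠ q i) (s : ℕ) (hs : s + 6 ≤ k) : W8 fun j => G.Adj x (q (s + j)) := by
  obtain ⟨t, ht⟩ := exists_tv G 6 (fun j => q (s + j)) x
  have hip : IP G X 6 fun j => q (s + j) := by
    refine ⟨fun i hi => h.ip.1 _ (by omega), fun i hi j hj hij => ?_, fun i hi j hj => ?_⟩
    · have := h.ip.2.1 _ (by omega) _ (by omega) hij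
      omega
    · rw [h.ip.2.2 _ (by omega) _ (by omega)]
      omega
  exact ⟨t, hW1 V G X _ x t h.fk h.nc hip hx (fun i hi => hne _ (by omega)) ht, ht.2⟩

private theorem w2_cyc (h : LP G X k q) {x : V} (hx : x ∈ X)
    (hne : ∀ i < k, x ≠ q i) (i j : ℕ) (hij : i + 5 ≤ j) (hjk : j < k) (hi : G.Adj x (q i))
    (hj : G.Adj x (q j)) (hno : ∀ m, i < m → m < j → ¬ G.Adj x (q m)) : False := by
  have hxa : ∀ b, b ≤ j - i → (G.Adj x (q (i + b)) ↔ b = 0 ∨ b = j - i) := by
    intro b hb
    constructor
    · intro h1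
      by_contra h2
      exact hno (i + b) (by omega) (by omega) h1
    · rintro (h1 | h1)
      · subst h1
        exact hi
      · subst h1
        have e : i + (j - i) = j := by omega
        rw [e]
        exact hj
  refine h.nc (j - i + 2) (by omega) (fun a => if a = j - i + 1 then x else q (i + a)) ⟨?_, ?_, ?_⟩
  · intro a ha
    by_cases h1 : a = j - i + 1
    · simp only [if_pos h1]
      exact hx
    · simp only [if_neg h1]
      exact h.ip.1 _ (by omega)
  · intro a ha b hb hab
    by_cases h1 : a = j - i + 1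
    · by_cases h2 : b = j - i + 1
      · omega
      · simp only [if_pos h1, if_neg h2] at hab
        exact absurd hab (hne _ (by omega))
    · by_cases h2 : b = j - i + 1
      · simp only [if_neg h1, if_pos h2] at hab
        exact absurd hab.symm (hne _ (by omega))
      · simp only [if_neg h1, if_neg h2] at hab
        have := h.ip.2.1 _ (by omega) _ (by omega) hab
        omega
  · intro a ha b hb
    by_cases h1 : a = j - i + 1
    · by_cases h2 : b = j - i + 1
      · simp only [if_pos h1, if_pos h2]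
        exact iff_of_false (G.loopless.irrefl x) (by omega)
      · simp only [if_pos h1, if_neg h2]
        rw [hxa b (by omega)]
        omega
    · by_cases h2 : b = j - i + 1
      · simp only [if_neg h1, if_pos h2]
        rw [G.adj_comm, hxa a (by omega)]
        omega
      · simp only [if_neg h1, if_neg h2]
        rw [h.ip.2.2 _ (by omega) _ (by omega)]
        omega

private theorem w2_ext (h : LP G X k q) {x : V} (hx : x ∈ X)
    (hne : ∀ i < k, x ≠ q i) (h0 : G.Adj x (q 0)) (hno : ∀ i, 1 ≤ i → i < k → ¬ G.Adj x (q i)) :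
    False := by
  have hk := h.hk
  have hxa : ∀ b < k, (G.Adj x (q b) ↔ b = 0) := by
    intro b hb
    constructor
    · intro h1
      by_contra h2
      exact hno b (by omega) hb h1
    · rintro rfl
      exact h0
  refine h.np (fun a => if a = 0 then x else q (a - 1)) ⟨?_, ?_, ?_⟩
  · intro a ha
    by_cases h1 : a = 0
    · simp only [if_pos h1]
      exact hx
    · simp only [if_neg h1]
      exact h.ip.1 _ (by omega)
  · intro a ha b hb hab
    by_cases h1 : a = 0
    · by_cases h2 : b = 0
      · omega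
      · simp only [if_pos h1, if_neg h2] at hab
        exact absurd hab (hne _ (by omega))
    · by_cases h2 : b = 0
      · simp only [if_neg h1, if_pos h2] at hab
        exact absurd hab.symm (hne _ (by omega))
      · simp only [if_neg h1, if_neg h2] at hab
        have := h.ip.2.1 _ (by omega) _ (by omega) hab
        omega
  · intro a ha b hb
    by_cases h1 : a = 0
    · by_cases h2 : b = 0
      · simp only [if_pos h1, if_pos h2]
        exact iff_of_false (G.loopless.irrefl x) (by omega)
      · simp only [if_pos h1, if_neg h2]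
        rw [hxa (b - 1) (by omega)]
        omega
    · by_cases h2 : b = 0
      · simp only [if_neg h1, if_pos h2]
        rw [G.adj_comm, hxa (a - 1) (by omega)]
        omega
      · simp only [if_neg h1, if_neg h2]
        rw [h.ip.2.2 _ (by omega) _ (by omega)]
        omega

private theorem w2_half (hW1 : S_W1) (h : LP G X k q) {x : V} (hx : x ∈ X)
    (hne : ∀ i < k, x ≠ q i) (h0 : G.Adj x (q 0)) :
    x ∈ TA G X k q k ∨ x ∈ TA G X k q 2 ∨ x ∈ TA G X k q 3 := by
  rcases w2_left (P := fun i => G.Adj x (q i)) h.hk (w2_win hW1 h hx hne)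
    (fun i j hij hjk hi hj hno => w2_cyc h hx hne i j hij hjk hi hj hno)
    (fun h0 hno => w2_ext h hx hne h0 hno) h0 with h1 | h1 | h1
  · exact Or.inl ⟨hx, hne, h1⟩
  · exact Or.inr (Or.inl ⟨hx, hne, h1⟩)
  · exact Or.inr (Or.inr ⟨hx, hne, h1⟩)

end

theorem fW2 (h1 : S_W1) : S_W2 := by
  intro V G X k q h x hx hne
  have hk := h.hk
  by_cases h0 : G.Adj x (q 0)
  · rcases w2_half h1 h hx hne h0 with h2 | h2 | h2
    · exact Or.inr (Or.inl h2)
    · exact Or.inr (Or.inr (Or.inl h2))
    · exact Or.inr (Or.inr (Or.inr (Or.inl h2)))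
  · by_cases h0' : G.Adj x (q (k - 1))
    · have hne' : ∀ i < k, x ≠ rv k q i := fun i hi => hne _ (by omega)
      rcases w2_half h1 h.rev hx hne' h0' with h2 | h2 | h2
      · refine Or.inr (Or.inl ⟨hx, hne, fun i hi => iff_of_true ?_ hi⟩)
        have h3 := (h2.2.2 (k - 1 - i) (by omega)).2 (by omega)
        have e : k - 1 - (k - 1 - i) = i := by omega
        unfold rv at h3
        rwa [e] at h3
      · exact Or.inr (Or.inr (Or.inr (Or.inr (Or.inl h2))))
      · exact Or.inr (Or.inr (Or.inr (Or.inr (Or.inr h2))))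
    · have h2 := w2_mid (P := fun i => G.Adj x (q i)) hk (w2_win h1 h hx hne) h0 h0'
      exact Or.inl ⟨hx, hne, fun i hi => iff_of_false (h2 i hi) (by omega)⟩

end Pool.Agent.MPd439b2.FK
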