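import Pool.Agent.Lib.MP_d439b2_co.FK.A1
import Pool.Agent.Lib.MP_d439b2_co.FK.A2
import Pool.Agent.Lib.MP_d439b2_co.FK.A3
import Pool.Agent.Lib.MP_d439b2_co.FK.H1
import Pool.Agent.Lib.MP_d439b2_co.FK.W1
import Pool.Agent.Lib.MP_d439b2_co.FK.W2
import Pool.Agent.Lib.MP_d439b2_co.FK.L1
import Pool.Agent.Lib.MP_d439b2_co.FK.L2
import Pool.Agent.Lib.MP_d439b2_co.FK.L3
import Pool.Agent.Lib.MP_d439b2_co.FK.L4
import Pool.Agent.Lib.MP_d439b2_co.FK.F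
import Pool.Agent.Lib.MP_d439b2_co.FK.T1
import Pool.Agent.Lib.MP_d439b2_co.FK.T2
import Pool.Agent.Lib.MP_d439b2_co.FK.T3
import Pool.Agent.Lib.MP_d439b2_co.FK.T4
import Pool.Agent.Lib.MP_d439b2_co.FK.Fork
import Pool.Agent.Lib.MP_d439b2_co.BU.B5
import Pool.Agent.Lib.MP_d439b2_co.BU.R1
import Pool.Agent.Lib.MP_d439b2_co.BU.R2
import Pool.Agent.Lib.MP_d439b2_co.BU.R3
import Pool.Agent.Lib.MP_d439b2_co.BU.R5
import Pool.Agent.Lib.MP_d439b2_co.KS.Y8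
import Pool.Agent.Lib.MP_d439b2_co.LayCW

/-!
# MP_d439b2_co, FK: the fork, without hypotheses
-/

set_option autoImplicit false

namespace Pool.Agent.MPd439b2.FK

open Pool.Agent.MPd439b2

theorem w2F : S_W2 := fW2 fW1

theorem l2F : S_L2 := fL2 w2F fL1

theorem l3F : S_L3 := fL3 w2F l2F

theorem l4F : S_L4 := fL4 l2F l3F

/-- **Theorem F.** -/
theorem fF' : S_F := fF fA1 (fA3 fA2) fH1 BU.b5 l3F l4F

/-- layouts of all subsets, from bounded clique-width -/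
theorem t1F (W W' : Type) (H : SimpleGraph W) (J : SimpleGraph W') (h : BoundedCW H J) :
    ∃ k : ℕ, ∀ (V : Type) [Finite V] (G : SimpleGraph V) (Y : Set V), ¬ IMS H G Y →
      ¬ IMS J G Y → BU.RL G Y k Y := fT1 KS.pY8 W W' H J h

/-- prime sets are enough -/
theorem t2F (W W' : Type) (H : SimpleGraph W) (J : SimpleGraph W')
    (h : ∃ K : ℕ, ∀ (V : Type) [Finite V] (G : SimpleGraph V) (X : Set V),
      BU.Prm G X → ¬ IMS H G X → ¬ IMS J G X → BU.RL G X K X) : BoundedCW H J :=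
  fT2 (BU.r2 BU.r1) BU.r3 layCW W W' H J h

/-- **THEOREM.** If `(K_2 + 2 P_1, J)` has bounded clique-width then so has `(fork, J)`. -/
theorem forkF : S_Fork := fFork fF' fT1 KS.pY8 fT2 (BU.r2 BU.r1) BU.r3 layCW fT3 fT4 BU.r5

end Pool.Agent.MPd439b2.FK
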