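import Pool.Agent.Lib.MP_d439b2_co.FK.Spec

set_option autoImplicit false

namespace Pool.Agent.MPd439b2.FK

open Pool.Agent.MPd439b2 Pool.Agent.MPd439b2.BU Pool.Agent.MPd439b2.HC

namespace fA1Aux

variable {V : Type}

/-- an induced path with four vertices (automatically distinct) -/
theorem ip4 {G : SimpleGraph V} {X : Set V} {a b c d : V} (ha : a ∈ X) (hb : b ∈ X) (hc : c ∈ X)
    (hd : d ∈ X) (ab : G.Adj a b) (bc : G.Adj b c) (cd : G.Adj c d)
    (ac : ¬ G.Adj a c) (ad : ¬ G.Adj a d) (bd : ¬ G.Adj b d) :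
    ∃ q : ℕ → V, IP G X 4 q ∧ q 0 = a ∧ q 1 = b ∧ q 2 = c ∧ q 3 = d := by
  have h1 : a ≠ c := fun h => ad (h ▸ cd)
  have h2 : a ≠ d := fun h => ac (h ▸ cd).symm
  have h4 : b ≠ d := fun h => ad (h ▸ ab)
  refine ⟨fun i => if i = 0 then a else if i = 1 then b else if i = 2 then c else d,
    ⟨?_, ?_, ?_⟩, rfl, rfl, rfl, rfl⟩
  · intro i hi
    interval_cases i <;> simpa
  · intro i hi j hj h
    interval_cases i <;> interval_cases j <;> first
      | rfl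
      | (exfalso
         simp only [OfNat.ofNat_ne_zero, OfNat.ofNat_ne_one, if_true, if_false, one_ne_zero,
           Nat.reduceEqDiff, zero_ne_one] at h
         first
           | exact ab.ne h | exact ab.ne h.symm | exact bc.ne h | exact bc.ne h.symm
           | exact cd.ne h | exact cd.ne h.symm
           | exact h1 h | exact h1 h.symm | exact h2 h | exact h2 h.symm
           | exact h4 h | exact h4 h.symm)
  · intro i hi j hj
    interval_cases i <;> interval_cases j <;>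
      simp [ab, ab.symm, bc, bc.symm, cd, cd.symm, ac, ad, bd,
        G.adj_comm c a, G.adj_comm d a, G.adj_comm d b]

/-- the path and the vertex -/
theorem fin {G : SimpleGraph V} {X : Set V} {a b c d y : V} (ha : a ∈ X) (hb : b ∈ X) (hc : c ∈ X)
    (hd : d ∈ X) (hy : y ∈ X) (ab : G.Adj a b) (bc : G.Adj b c) (cd : G.Adj c d)
    (ac : ¬ G.Adj a c) (ad : ¬ G.Adj a d) (bd : ¬ G.Adj b d) (e0 : y ≠ a) (e1 : y ≠ b) (e2 : y ≠ c)
    (e3 : y ≠ d) (ya : ¬ G.Adj y a) (yb : ¬ G.Adj y b) (yc : ¬ G.Adj y c) (yd : ¬ G.Adj y d) :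
    ∃ q z, IP G X 4 q ∧ z ∈ X ∧ (∀ i < 4, z ≠ q i) ∧ ∀ i < 4, ¬ G.Adj z (q i) := by
  obtain ⟨q, hq, q0, q1, q2, q3⟩ := ip4 ha hb hc hd ab bc cd ac ad bd
  refine ⟨q, y, hq, hy, ?_, ?_⟩
  · intro i hi
    interval_cases i
    · rwa [q0]
    · rwa [q1]
    · rwa [q2]
    · rwa [q3]
  · intro i hi
    interval_cases i
    · rwa [q0]
    · rwa [q1]
    · rwa [q2]
    · rwa [q3]

end fA1Aux

open fA1Aux in
theorem fA1 : S_A1 := by
  intro V G X hP hF hK
  unfold NoK at hK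
  push Not at hK
  obtain ⟨a, ha, b, hb, x, hx, y, hy, hab, hxy, nxy, nax, nay, nbx, nby, -⟩ := hK
  have eax : a ≠ x := fun h => nbx (h ▸ hab.symm)
  have eay : a ≠ y := fun h => nby (h ▸ hab.symm)
  have ebx : b ≠ x := fun h => nax (h ▸ hab)
  have eby : b ≠ y := fun h => nay (h ▸ hab)
  obtain ⟨C, hC, haC, hconn, hcl⟩ := exists_comp G
    (A := {v | v ∈ X ∧ v ≠ x ∧ v ≠ y ∧ ¬ G.Adj v x ∧ ¬ G.Adj v y}) (v := a) ⟨ha, eax, eay, nax, nay⟩
  have hbC : b ∈ C := by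
    by_contra h
    exact hcl b ⟨hb, ebx, eby, nbx, nby⟩ ⟨h, a, haC, hab⟩
  have hCX : C ⊆ X := fun v hv => (hC hv).1
  -- `C` is not a module
  have hnm : ¬ Mod G X C := by
    intro h
    rcases hP C h with h1 | h1
    · exact hab.ne (h1 haC hbC)
    · rw [← h1] at hx
      exact (hC hx).2.1 rfl
  have hz : ∃ z ∈ X, z ∉ C ∧ (∃ c ∈ C, G.Adj z c) ∧ ∃ c ∈ C, ¬ G.Adj z c := by
    by_contra hcon
    push Not at hcon
    exact hnm ⟨hCX, fun z hz hzC c hc d hd hzc => hcon z hz hzC ⟨c, hc, hzc⟩ d hd⟩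
  obtain ⟨z, hzX, hzC, hz1, hz2⟩ := hz
  obtain ⟨c, hc, hzc⟩ := hz1
  have ezx : z ≠ x := fun h => (hC hc).2.2.2.1 (h ▸ hzc).symm
  have ezy : z ≠ y := fun h => (hC hc).2.2.2.2 (h ▸ hzc).symm
  have hzxy : G.Adj z x ∨ G.Adj z y := by
    by_contra hcon
    push Not at hcon
    exact hcl z ⟨hzX, ezx, ezy, hcon.1, hcon.2⟩ ⟨hzC, c, hc, hzc.symm⟩
  obtain ⟨a₁, h1C, a₂, h2C, hz1, hz2, h12⟩ := mixed_conn hconn ⟨c, hc, hzc⟩ hz2
  obtain ⟨h1X, e1x, e1y, n1x, n1y⟩ := hC h1C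
  obtain ⟨h2X, e2x, e2y, n2x, n2y⟩ := hC h2C
  by_cases hzx : G.Adj z x
  · by_cases hzy : G.Adj z y
    · exact (fork5 hF hzX hx hy h1X h2X hxy hzx hzy hz1 h12 hz2 nxy (fun h => n1x h.symm)
        (fun h => n2x h.symm) (fun h => n1y h.symm) (fun h => n2y h.symm)).elim
    · exact fin hx hzX h1X h2X hy hzx.symm hz1 h12 (fun h => n1x h.symm) (fun h => n2x h.symm) hz2
        hxy.symm ezy.symm e1y.symm e2y.symm (fun h => nxy h.symm) (fun h => hzy h.symm)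
        (fun h => n1y h.symm) (fun h => n2y h.symm)
  · have hzy : G.Adj z y := hzxy.resolve_left hzx
    exact fin hy hzX h1X h2X hx hzy.symm hz1 h12 (fun h => n1y h.symm) (fun h => n2y h.symm) hz2
      hxy ezx.symm e1x.symm e2x.symm nxy (fun h => hzx h.symm)
      (fun h => n1x h.symm) (fun h => n2x h.symm)

end Pool.Agent.MPd439b2.FK
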