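import Pool.Agent.Lib.MP_d439b2_co.FK.Spec

/-!
# MP_d439b2_co, FK/F: Theorem F
-/

set_option autoImplicit false

namespace Pool.Agent.MPd439b2.FK

open Pool.Agent.MPd439b2 Pool.Agent.MPd439b2.BU Pool.Agent.MPd439b2.HC

namespace fFAux

theorem ip_le {V : Type} [Finite V] {G : SimpleGraph V} {X : Set V} {n : ℕ} {q : ℕ → V}
    (h : IP G X n q) : n ≤ Nat.card V := by
  have h1 : Function.Injective (fun i : Fin n => q i) := fun i j hij =>
    Fin.ext (h.2.1 i i.2 j j.2 hij)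
  have h2 := Nat.card_le_card_of_injective _ h1
  rwa [Nat.card_eq_fintype_card, Fintype.card_fin] at h2

end fFAux

open fFAux in
theorem fF (h1 : S_A1) (h2 : S_A3) (h3 : S_H1) (h4 : S_B5) (h5 : S_L3) (h6 : S_L4) : S_F := by
  classical
  intro V _ G X hprm hF
  by_cases hK : NoK G X
  · exact Or.inr (Or.inr hK)
  obtain ⟨q, z, hq, hz, hz1, hz2⟩ := h1 V G X hprm hF hK
  obtain ⟨p, hp⟩ := h2 V G X q z hprm hF hq hz hz1 hz2
  by_cases hC : ∃ n p, 7 ≤ n ∧ IC G X n p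
  · obtain ⟨n, c, hn, hc⟩ := hC
    exact Or.inr (Or.inl ⟨n, c, hn, hc, h3 h4 V G X n c hprm hF hc hn⟩)
  have hnc : NoC G X 7 := fun n hn c hc => hC ⟨n, c, hn, hc⟩
  obtain ⟨k, hk6, hkq, hknp⟩ : ∃ k, 6 ≤ k ∧ (∃ q, IP G X k q) ∧ NoP G X (k + 1) := by
    have h6c : 6 ≤ Nat.card V := ip_le hp
    refine ⟨Nat.findGreatest (fun n => ∃ q, IP G X n q) (Nat.card V), ?_, ?_, ?_⟩
    · exact Nat.le_findGreatest h6c ⟨p, hp⟩
    · exact Nat.findGreatest_spec (P := fun n => ∃ q, IP G X n q) h6c ⟨p, hp⟩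
    · intro r hr
      exact Nat.findGreatest_is_greatest (P := fun n => ∃ q, IP G X n q) (Nat.lt_succ_self _)
        (ip_le hr) ⟨r, hr⟩
  obtain ⟨q, hq⟩ := hkq
  have hLP : LP G X k q := ⟨hprm, hF, hk6, hq, hknp, hnc⟩
  obtain ⟨e1, e2⟩ := h6 V G X k q hLP
  obtain ⟨e3, e4⟩ := h6 V G X k (rv k q) hLP.rev
  refine Or.inl ⟨k, q, hq, fun x hx => ?_⟩
  rcases h5 V G X k q hLP x hx with h | h | h | h | h
  · exact h
  · rw [e1] at h
    exact absurd h (Set.notMem_empty x)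
  · rw [e2] at h
    exact absurd h (Set.notMem_empty x)
  · rw [e3] at h
    exact absurd h (Set.notMem_empty x)
  · rw [e4] at h
    exact absurd h (Set.notMem_empty x)

end Pool.Agent.MPd439b2.FK
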