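import Pool.Agent.Lib.MP_d439b2_co.HC.EngC
import Pool.Agent.Lib.MP_d439b2_co.BU.Spec
import Pool.Agent.Lib.MP_d439b2_co.KS.SpecZ
import Pool.Agent.Lib.MP_d439b2_co.Spec1
import Pool.Agent.Lib.MP_d439b2_co.B.SpecG

/-!
# MP_d439b2_co, FK: the small base of the fork (notes 2610 of helper79, 2618 of helper90, refereed in 2661)

**Theorem F.** A prime graph without induced minor fork is an induced path, an induced cycle, or contains no
induced `K_2 + 2 P_1`.

**Corollary.** For every `J`: if `(K_2 + 2 P_1, J)` has bounded clique-width then so has `(fork, J)`.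

Every `S_...` is a statement to be proved in its own file; the docstring contains the complete proof; the used
statements are hypotheses of the theorem, in the order given in `(Uses ...)`.  The theorem for `S_X` is
called `fX` and is in the file `FK/X.lean`.  `a ~ b` means `G.Adj a b`.
Everything is relative to the induced subgraph `G[X]`.
-/

set_option autoImplicit false

namespace Pool.Agent.MPd439b2.FK

open Pool.Agent.MPd439b2
open Pool.Agent.MPd439b2.BU
open Pool.Agent.MPd439b2.HC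

variable {V : Type}

/-! ### the fork, certificates -/

/-- the fork: centre `0`, leaves `1`, `2`, and the path `0 3 4` (five vertices) -/
def rF : ℕ → ℕ → Bool := rel [(1, 0), (2, 0), (3, 0), (4, 3)]

/-- **patterns with certificates do not occur** -/
theorem killF {G : SimpleGraph V} {X : Set V} {S : ℕ → Set V} {ts : List ℕ} {n : ℕ}
    (hF : SPF G X 5 rF) (hS : SP G X n S (rc ts)) (hn : ts.length = n) (cs : List (List (List ℕ)))
    (hc : (cs.any fun L => chkG ts.length 5 (rc ts) rF L) = true) : False := by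
  subst hn
  rw [List.any_eq_true] at hc
  obtain ⟨L, _, hL⟩ := hc
  exact hF _ (chkG_sp hS hL)

/-- the fork with vertices: centre `c`, leaves `a ≠ b`, the path `c d e` -/
theorem fork5 {G : SimpleGraph V} {X : Set V} (hF : SPF G X 5 rF) {c a b d e : V} (hc : c ∈ X)
    (ha : a ∈ X) (hb : b ∈ X) (hd : d ∈ X) (he : e ∈ X) (hab : a ≠ b) (ca : G.Adj c a)
    (cb : G.Adj c b) (cd : G.Adj c d) (de : G.Adj d e) (nce : ¬ G.Adj c e) (nab : ¬ G.Adj a b)
    (nad : ¬ G.Adj a d) (nae : ¬ G.Adj a e) (nbd : ¬ G.Adj b d) (nbe : ¬ G.Adj b e) : False := by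
  have e1 : a ≠ d := fun h => nae (h ▸ de)
  have e2 : a ≠ e := fun h => nce (h ▸ ca)
  have e3 : b ≠ d := fun h => nbe (h ▸ de)
  have e4 : b ≠ e := fun h => nce (h ▸ cb)
  have e5 : c ≠ e := fun h => by
    subst h
    exact nae ca.symm
  have key : ∀ (p : ℕ → V), p 0 = c → p 1 = a → p 2 = b → p 3 = d → p 4 = e → False := by
    intro p h0 h1 h2 h3 h4
    refine hF (fun i => {p i}) ⟨?_, fun i _ => Conn.singleton G _, ?_, ?_⟩
    · intro i hi
      rw [Set.singleton_subset_iff]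
      interval_cases i
      · rwa [h0]
      · rwa [h1]
      · rwa [h2]
      · rwa [h3]
      · rwa [h4]
    · intro i hi j hj
      rw [Set.disjoint_singleton]
      interval_cases i <;> interval_cases j <;> simp only [h0, h1, h2, h3, h4] <;> first
        | exact ca.ne.symm | exact cb.ne.symm | exact cd.ne.symm | exact de.ne.symm | exact hab.symm
        | exact e1.symm | exact e2.symm | exact e3.symm | exact e4.symm | exact e5.symm
    · intro i hi j hj
      rw [tch_single]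
      interval_cases i <;> interval_cases j <;> simp only [h0, h1, h2, h3, h4] <;> first
        | exact iff_of_true ca.symm (by decide)
        | exact iff_of_true cb.symm (by decide)
        | exact iff_of_true cd.symm (by decide)
        | exact iff_of_true de.symm (by decide)
        | exact iff_of_false (fun h => nce h.symm) (by decide)
        | exact iff_of_false (fun h => nab h.symm) (by decide)
        | exact iff_of_false (fun h => nad h.symm) (by decide)
        | exact iff_of_false (fun h => nae h.symm) (by decide)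
        | exact iff_of_false (fun h => nbd h.symm) (by decide)
        | exact iff_of_false (fun h => nbe h.symm) (by decide)
  exact key (fun i => if i = 0 then c else if i = 1 then a else if i = 2 then b else if i = 3 then d
    else e) rfl rfl rfl rfl rfl

/-- certificates for `P_4` with two vertices -/
def cP4 : List (List (List ℕ)) :=
  [[[1], [0], [2], [5], [4]], [[5, 1], [0], [4], [2], [3]], [[2], [1], [3], [5], [4]],
    [[2, 1], [0], [3], [5], [4]], [[5], [0], [4], [2], [3]], [[5], [0], [4], [3], [2]],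
    [[5], [3], [4], [1], [0]], [[5, 2], [3], [4], [1], [0]], [[5], [3], [4], [0], [1]]]

/-- certificates for `P_6` with one vertex -/
def cP6 : List (List (List ℕ)) :=
  [[[1], [0], [6], [2], [3]], [[2], [1], [6], [3], [4]], [[2, 1], [0], [6], [3], [4]],
    [[3], [2], [6], [4], [5]], [[3, 2], [1], [6], [4], [5]], [[3, 2, 1], [0], [6], [4], [5]],
    [[6, 3], [0], [2], [4], [5]], [[4], [5], [6], [3], [2]], [[2], [3], [6], [1], [0]],
    [[4], [3], [5], [6], [0]], [[4], [3], [5], [6], [1]], [[4, 3], [5], [6], [2], [1]],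
    [[1], [0], [2], [6], [4]], [[4, 3], [2], [5], [6], [0]], [[4, 3, 2], [5], [6], [1], [0]],
    [[6], [0], [2], [4], [5]], [[6, 4], [3], [5], [1], [0]], [[1], [0], [2], [6], [5]],
    [[6, 1], [0], [2], [5], [4]], [[2], [1], [3], [6], [5]], [[6], [0], [2], [5], [4]],
    [[3], [4], [6], [2], [1]], [[6], [3], [5], [1], [0]], [[6], [0], [5], [3], [2]],
    [[6, 2], [3], [5], [1], [0]], [[6, 4], [0], [5], [3], [2]], [[6], [0], [5], [2], [3]],
    [[6], [3], [5], [0], [1]]]

/-- certificates for `C_7` with one vertex -/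
def cC7 : List (List (List ℕ)) :=
  [[[1], [2], [7], [0], [6]], [[2, 1], [3], [7], [0], [6]], [[3], [2], [7], [4], [5]],
    [[3, 2, 1], [4], [7], [0], [6]], [[4], [3], [7], [5], [6]], [[7, 4], [1], [3], [5], [6]],
    [[5], [6], [7], [4], [3]], [[5], [4], [6], [7], [1]], [[5], [4], [6], [7], [2]],
    [[5, 4], [3], [6], [7], [1]], [[7], [1], [3], [5], [6]], [[6], [0], [7], [5], [4]],
    [[3], [2], [4], [7], [6]], [[7], [1], [3], [6], [5]], [[4], [5], [7], [3], [2]],
    [[7], [1], [6], [4], [3]], [[1], [0], [2], [7], [5]], [[7, 5], [1], [6], [4], [3]],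
    [[7], [1], [6], [3], [4]], [[7], [4], [6], [1], [2]], [[7], [2], [4], [6], [0]]]

/-- all patterns for `P_4` with two vertices `4` (anticomplete to the path) and `5 ~ 4`, `5` touches the path -/
theorem tabP4 : ∀ t < 16, t ≠ 0 → t ∉ [1, 8, 15] →
    (cP4.any fun L => chkG 6 5 (rc [0, 1, 2, 4, 0, 16 + t]) rF L) = true := by
  decide +kernel

/-- all patterns for `P_6` with one vertex -/
theorem tabP6 : ∀ t < 64, t ∉ [0, 1, 3, 7, 32, 33, 48, 56, 63] →
    (cP6.any fun L => chkG 7 5 (rc [0, 1, 2, 4, 8, 16, t]) rF L) = true := by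
  decide +kernel

/-- all patterns for `C_7` with one vertex -/
theorem tabC7 : ∀ t < 128, t.testBit 0 = false → t.testBit 1 = true →
    (cC7.any fun L => chkG 8 5 (rc [0, 1, 2, 4, 8, 16, 33, t]) rF L) = true := by
  decide +kernel

/-! ### definitions -/

/-- `G[X]` has no induced `K_2 + 2 P_1` -/
def NoK (G : SimpleGraph V) (X : Set V) : Prop := ∀ a ∈ X, ∀ b ∈ X, ∀ x ∈ X, ∀ y ∈ X, G.Adj a b →
  x ≠ y → ¬ G.Adj x y → ¬ G.Adj a x → ¬ G.Adj a y → ¬ G.Adj b x → ¬ G.Adj b y → False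

/-- the vertices of `X` outside the path `q 0, ..., q (k-1)` which are adjacent exactly to the first `m` vertices
of the path -/
def TA (G : SimpleGraph V) (X : Set V) (k : ℕ) (q : ℕ → V) (m : ℕ) : Set V :=
  {x | x ∈ X ∧ (∀ i < k, x ≠ q i) ∧ ∀ i < k, (G.Adj x (q i) ↔ i < m)}

/-- `q 0, ..., q (k-1)` is a longest induced path of a prime fork-free graph without holes of length at
least seven, `6 ≤ k` -/
structure LP (G : SimpleGraph V) (X : Set V) (k : ℕ) (q : ℕ → V) : Prop where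
  prm : Prm G X
  fk : SPF G X 5 rF
  hk : 6 ≤ k
  ip : IP G X k q
  np : NoP G X (k + 1)
  nc : NoC G X 7

/-- the reversed path -/
def rv (k : ℕ) (q : ℕ → V) (i : ℕ) : V := q (k - 1 - i)

theorem LP.rev {G : SimpleGraph V} {X : Set V} {k : ℕ} {q : ℕ → V} (h : LP G X k q) :
    LP G X k (rv k q) := ⟨h.prm, h.fk, h.hk, h.ip.rev, h.np, h.nc⟩

/-! ### from `K_2 + 2 P_1` to `P_6` -/

/-- **A1.** `K_2 + 2 P_1` gives `P_4 + P_1`.

Proof. Let `a ~ b`, `x ≠ y`, `x ≁ y`, no edges between `{a, b}` and `{x, y}`.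
`X' = {v ∈ X | v ≠ x, v ≠ y, v ≁ x, v ≁ y}`, `C` = component of `a` in `X'` (`exists_comp`).  `b ∈ C` (`a ~ b`,
closure).  `C` is not subsingleton and `C ≠ X` (`x ∉ C`), so it is not a module: there is `z ∈ X \ C` with a
neighbour and a non-neighbour in `C`; `z ∉ X'` (otherwise `z ∈ C`); `z ≠ x, y` (they have no neighbours in `C`).
So `z ~ x` or `z ~ y`.  `mixed_conn`: `a₁, a₂ ∈ C`, `z ~ a₁`, `z ≁ a₂`, `a₁ ~ a₂`.
`z ~ x`, `z ≁ y`: the path `x, z, a₁, a₂` and `y`.  `z ~ y`, `z ≁ x`: the path `y, z, a₁, a₂` and `x`.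
`z ~ x, y`: `fork5` with centre `z`, leaves `x, y`, `d = a₁`, `e = a₂`.
(For `IP G X 4`: `fun i => if i = 0 then _ else if i = 1 then _ else if i = 2 then _ else _`, all distinctness
facts follow from the adjacencies, compare `ip5` in `BU/Defs.lean`.) -/
def S_A1 : Prop := ∀ (V : Type) (G : SimpleGraph V) (X : Set V), Prm G X → SPF G X 5 rF →
  ¬ NoK G X → ∃ q z, IP G X 4 q ∧ z ∈ X ∧ (∀ i < 4, z ≠ q i) ∧ ∀ i < 4, ¬ G.Adj z (q i)

/-- **A2.** Traces on `P_4` of a vertex `y` with a neighbour `z` which is anticomplete to the path.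

Proof. `SP G X 4 (fun i => {q i}) (rc [0, 1, 2, 4])` from `IP`; `snocV` with `z`: the code is `0` (all bits are
`false`, `Nat.eq_of_testBit_eq` or `interval_cases`/`decide` over `t < 16`); `snocV` with `y`: code `t' < 32` with bit
`4` `true`; `t' = 16 + t` with `t < 16`, `t ≠ 0` because of `hy`.  `killF` with `cP4` and `tabP4`: `t ∈ [1, 8, 15]`. -/
def S_A2 : Prop := ∀ (V : Type) (G : SimpleGraph V) (X : Set V) (q : ℕ → V) (y z : V),
  SPF G X 5 rF → IP G X 4 q → z ∈ X → (∀ i < 4, z ≠ q i) → (∀ i < 4, ¬ G.Adj z (q i)) → y ∈ X →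
    (∀ i < 4, y ≠ q i) → G.Adj y z → (∃ i < 4, G.Adj y (q i)) →
      (∀ i < 4, (G.Adj y (q i) ↔ i = 0)) ∨ (∀ i < 4, (G.Adj y (q i) ↔ i = 3)) ∨
        ∀ i < 4, G.Adj y (q i)

/-- **A3.** `P_4 + P_1` gives `P_6`.  (Uses `S_A2`.)

Proof. Suppose there is no induced `P_6`.  `P = {q i | i < 4}`; `Z` = the vertices of `X \ P` without neighbours in
`P` (nonempty, contains the given `z₀`); `Y` = the vertices of `X \ P` with a neighbour in `P` and a neighbour in
`Z`; `Q = X \ (Y ∪ Z)` contains `P`, and there are no edges between `Q` and `Z`.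
(1) Every `y ∈ Y` is complete to `P`: A2 with a neighbour `z ∈ Z`; in the case `i = 0` the path
`z, y, q 0, q 1, q 2, q 3` is induced, in the case `i = 3` the path `z, y, q 3, q 2, q 1, q 0`.
(2) `K` = component of `q 0` in `Gᶜ[Q]` (`exists_comp Gᶜ`).  `P ⊆ K` (`q 2`, `q 3` are not adjacent to `q 0`, `q 1` is
not adjacent to `q 3`; closure of the component).
(3) Every `y ∈ Y` is complete to `K`.  Suppose not.  Let `z ∈ Z`, `z ~ y`; `X₁ = {x ∈ Q | y ~ x}` contains `P`;
`K₁` = component of `q 0` in `Gᶜ[X₁]`; as in (2) `P ⊆ K₁`.  `K₁ ⊆ K` (otherwise, by `Conn Gᶜ K₁` applied to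
`K₁ ∩ K`, there is an edge of `Gᶜ` from `K₁ ∩ K` to an element of `K₁ \ K`, against the closure of `K`).
`K₁ ≠ K`, because some `k ∈ K` is not adjacent to `y`.  `Conn Gᶜ K` applied to `K₁`: there are `x ∈ K \ K₁` and
`b₀ ∈ K₁` with `x ≠ b₀`, `x ≁ b₀`.  `x ∉ X₁` (otherwise `x ∈ K₁`), so `y ≁ x`.  `x ∈ Q \ P` (as `P ⊆ K₁`), so `x` has a
neighbour in `P ⊆ K₁` (it is not in `Z`).  `mixed_co`: `a, b ∈ K₁`, `x ~ a`, `x ≁ b`, `a ≠ b`, `a ≁ b`.
`fork5` with centre `y`, leaves `z`, `b`, `d = a`, `e = x`.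
(4) `K` is a module: `Y` is complete to `K`, `Z` anticomplete, `Q \ K` complete (closure of the component of `Gᶜ`).
`q 0, q 1 ∈ K` and `z₀ ∉ K`: contradiction to `Prm G X`. -/
def S_A3 : Prop := ∀ (V : Type) (G : SimpleGraph V) (X : Set V) (q : ℕ → V) (z : V), Prm G X →
  SPF G X 5 rF → IP G X 4 q → z ∈ X → (∀ i < 4, z ≠ q i) → (∀ i < 4, ¬ G.Adj z (q i)) →
    ∃ p, IP G X 6 p

/-! ### holes and windows -/

/-- **H1.** A prime fork-free graph with a hole of length at least seven is this hole.  (Uses `BU.S_B5`,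
proved: `BU.b5` in `BU/B5.lean`.)

Proof. `Q = {p i | i < n}`; it is enough that `Q` is a module (`p 0 ≠ p 1`).  Suppose `x ∈ X \ Q` is adjacent to
`p a` and not to `p b`.  As in `BU/B6.lean` (for `K = {x}`) there is `s < n` with `x ≁ p s` and
`x ~ p ((s + 1) % n)`; rotate by `s` (`BU.S_B5`): now `x ≁ p 0`, `x ~ p 1`.  `S i = {p i}` for `i < 6`,
`S 6 = {p i | 6 ≤ i < n}`, `S 7 = {x}`: `SP G X 8 S (rc [0, 1, 2, 4, 8, 16, 33, t])` with the code `t` of `x`
(`exists_tr`; literally as in `BU/B6.lean`, where the pattern is called `rC 7 [t]`; one can prove the pattern with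
seven sets first and then use `snocV`).  `killF` with `cC7` and `tabC7`. -/
def S_H1 : Prop := S_B5 → ∀ (V : Type) (G : SimpleGraph V) (X : Set V) (n : ℕ) (p : ℕ → V),
  Prm G X → SPF G X 5 rF → IC G X n p → 7 ≤ n → ∀ x ∈ X, ∃ i < n, x = p i

/-- **W1.** The traces of a vertex on an induced `P_6`.

Proof. `SP G X 6 (fun i => {p i}) (rc [0, 1, 2, 4, 8, 16])`, `snocV` with `x`; `killF` with `cP6` and `tabP6`:
`t ∈ [0, 1, 3, 7, 32, 33, 48, 56, 63]`.  `t = 33`: `p 0, ..., p 5, x` is an induced cycle with seven vertices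
(`IC G X 7 (fun i => if i = 6 then x else p i)`), against `NoC G X 7`. -/
def S_W1 : Prop := ∀ (V : Type) (G : SimpleGraph V) (X : Set V) (p : ℕ → V) (x : V) (t : ℕ),
  SPF G X 5 rF → NoC G X 7 → IP G X 6 p → x ∈ X → (∀ i < 6, x ≠ p i) → Tv G 6 p x t →
    t ∈ [0, 1, 3, 7, 32, 48, 56, 63]

/-- **W2.** The traces on a longest path.  (Uses `S_W1`.)

Proof. `T = {i < k | x ~ q i}`; suppose `T` is not empty and not `{i | i < k}`.  For `s + 6 ≤ k` the path
`q s, ..., q (s + 5)` and `x` satisfy W1; (W) the word `(x ~ q (s + j))_j`, `j < 6`, is one of `000000`, `100000`,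
`110000`, `111000`, `000001`, `000011`, `000111`, `111111` (first letter `j = 0`).
(1) There are no `i < m < j` with `i, j ∈ T`, `m ∉ T`: take them with `j - i` minimal (then all `m` between `i` and
`j` are not in `T`).  If `j - i ≥ 5`: `x, q i, q (i+1), ..., q j` is an induced cycle with `j - i + 2 ≥ 7` vertices
(`IC G X (j - i + 2) (fun a => if a = j - i + 1 then x else q (i + a))`).  Otherwise a window contains
`i, ..., j` (`s = min i (k - 6)`), against (W).
(2) `0 ∈ T`: let `m` be the smallest index not in `T`; `T = {i | i < m}` by (1).  `m ≥ 6`: window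
`s = m - 5`, word `111110`, against (W).  So the window `s = 0` gives `m ≤ 3`.  `m = 1`: `x, q 0, ..., q (k-1)` is an
induced path with `k + 1` vertices.  So `m = 2` or `m = 3`: `x ∈ TA G X k q 2` or `x ∈ TA G X k q 3`.
(3) `k - 1 ∈ T`: the same for the reversed path (`LP.rev`): prove (2) for all `LP` first.
(4) `0 ∉ T`, `k - 1 ∉ T`: let `i` be the smallest and `j` the largest element of `T`; `T = [i, j]` by (1),
`1 ≤ i`, `j ≤ k - 2`.  If `j ≥ i + 4`: window `s = i - 1`, word `011111`, against (W).  Otherwise the window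
`s = min (i - 1) (k - 6)` contains `i - 1` and `j + 1`, against (W). -/
def S_W2 : Prop := ∀ (V : Type) (G : SimpleGraph V) (X : Set V) (k : ℕ) (q : ℕ → V), LP G X k q →
  ∀ x ∈ X, (∀ i < k, x ≠ q i) → x ∈ TA G X k q 0 ∨ x ∈ TA G X k q k ∨ x ∈ TA G X k q 2 ∨
    x ∈ TA G X k q 3 ∨ x ∈ TA G X k (rv k q) 2 ∨ x ∈ TA G X k (rv k q) 3

/-! ### the longest path is everything -/

/-- **L1.** Exchanging one vertex of the path.

Proof. `a ~ q 1`, `a ≁ q i` for `2 ≤ i < k`, `a ≠ q i`: `a, q 1, ..., q (k-1)` is an induced path; the other fields do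
not change.  `b ~ q 0, q 2`, `b ≁ q i` for `3 ≤ i < k`: `q 0, b, q 2, ..., q (k-1)` is an induced path. -/
def S_L1 : Prop := ∀ (V : Type) (G : SimpleGraph V) (X : Set V) (k : ℕ) (q : ℕ → V), LP G X k q →
  (∀ a ∈ TA G X k q 2, LP G X k (fun i => if i = 0 then a else q i)) ∧
  ∀ b ∈ TA G X k q 3, LP G X k (fun i => if i = 1 then b else q i)

/-- **L2.** Adjacencies between the classes.  (Uses `S_W2`, `S_L1`.)

Proof. `q^a = (a, q 1, ..., q (k-1))` for `a ∈ TA 2`, `q^b = (q 0, b, q 2, ...)` for `b ∈ TA 3` are `LP` by L1.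
(1) `z ∈ TA 0`, `a ∈ TA 2`, `z ~ a`: W2 for `q^a` and `z` (`z ≠ a`): `z` is adjacent to the vertex number `0` and not to
`1, ..., k - 1`: this is none of the six cases (`TA k` and `TA 2`, `TA 3` need the number `1`, the reversed ones need
the number `k - 1`).  `z ~ b`, `b ∈ TA 3`: `z` is adjacent exactly to the number `1` of `q^b`: the same (`TA k`, `TA 2`,
`TA 3` need the number `0`, the reversed ones the number `k - 1 ≠ 1`).
(2) `f ∈ TA k`, `x ∈ TA 2 ∪ TA 3`, `f ≁ x`: `fork5` with centre `f`, leaves `q 3`, `q 5`, `d = q 1`, `e = x`.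
(3) `y ∈ TA (rv) 2 ∪ TA (rv) 3` (so `y ~ q (k-1)`, `y ≁ q 0, q 1, q 2` as `k ≥ 6`), `a ∈ TA 2`, `y ~ a`: W2 for `q^a` and
`y`: `y` is adjacent to the number `0` and not to `1`: excludes `TA 0`, `TA k`, `TA 2`, `TA 3`; the reversed ones are
not adjacent to the number `0` (`rv k q^a (k - 1) = a`, `¬ k - 1 < 3`).  `b ∈ TA 3`, `y ~ b`: `y` is adjacent to the
number `1` and not to `0` of `q^b`; the same (`¬ k - 2 < 3`).
(4) `a ∈ TA 2`, `b ∈ TA 3`, `a ≁ b`: W2 for `q^a` and `b` (`b ≠ a`, since `b ~ q 2`, `a ≁ q 2`): `b` is adjacent to the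
number `1` and not to `0`: excludes `TA 0`, `TA k`, `TA 2`, `TA 3`; the reversed ones are not adjacent to the number
`1` (`¬ k - 2 < 3`). -/
def S_L2 : Prop := ∀ (V : Type) (G : SimpleGraph V) (X : Set V) (k : ℕ) (q : ℕ → V), LP G X k q →
  (∀ z ∈ TA G X k q 0, ∀ x, x ∈ TA G X k q 2 ∨ x ∈ TA G X k q 3 → ¬ G.Adj z x) ∧
  (∀ f ∈ TA G X k q k, ∀ x, x ∈ TA G X k q 2 ∨ x ∈ TA G X k q 3 → G.Adj f x) ∧
  (∀ y, y ∈ TA G X k (rv k q) 2 ∨ y ∈ TA G X k (rv k q) 3 →
    ∀ x, x ∈ TA G X k q 2 ∨ x ∈ TA G X k q 3 → ¬ G.Adj y x) ∧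
  ∀ a ∈ TA G X k q 2, ∀ b ∈ TA G X k q 3, G.Adj a b

/-- **L3.** All other vertices are in the four classes.  (Uses `S_W2`, `S_L2`.)

Proof. `M` = the set of the `q i`, `i < k`, and the vertices in `TA 2`, `TA 3`, `TA (rv) 2`, `TA (rv) 3`.  It is a
module: a vertex `y ∈ X \ M` is in `TA 0` or in `TA k` (W2).  `TA 0` for `q` and for `rv k q` are the same set, also
`TA k` (`rv k (rv k q) i = q i` for `i < k`).  L2 (1), (2) for `q` and for `rv k q` (`LP.rev`): a vertex in `TA 0` has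
no neighbour in `M`, a vertex in `TA k` is adjacent to all of `M`.  `q 0 ≠ q 1` are in `M`, so `M = X` by
primality. -/
def S_L3 : Prop := ∀ (V : Type) (G : SimpleGraph V) (X : Set V) (k : ℕ) (q : ℕ → V), LP G X k q →
  ∀ x ∈ X, (∃ i < k, x = q i) ∨ x ∈ TA G X k q 2 ∨ x ∈ TA G X k q 3 ∨ x ∈ TA G X k (rv k q) 2 ∨
    x ∈ TA G X k (rv k q) 3

/-- **L4.** The classes are empty.  (Uses `S_L2`, `S_L3`.)

Proof. `M = {q 0} ∪ TA 2` is a module of `G[X]`: let `y ∈ X \ M`.  By L3: `y = q 1`: adjacent to all of `M`; `y = q i`,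
`2 ≤ i < k`: adjacent to nothing in `M`; `y ∈ TA 3`: adjacent to `q 0` and to `TA 2` (L2 (4)); `y ∈ TA (rv) 2 ∪ TA (rv) 3`:
not adjacent to `q 0 = rv k q (k - 1)` and to `TA 2` (L2 (3)).  `q 1 ∉ M`, so `M` is subsingleton (`Prm`), and
`TA 2 = ∅` (its elements are `≠ q 0`).
`M' = {q 1} ∪ TA 3` is a module: `y = q 0`, `y = q 2`: adjacent to all of `M'`; `y = q i`, `3 ≤ i`: to nothing;
`y ∈ TA 2`: impossible; `y ∈ TA (rv) 2 ∪ TA (rv) 3`: adjacent to nothing (`q 1 = rv k q (k - 2)`; L2 (3)).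
`q 0 ∉ M'`, so `TA 3 = ∅`. -/
def S_L4 : Prop := ∀ (V : Type) (G : SimpleGraph V) (X : Set V) (k : ℕ) (q : ℕ → V), LP G X k q →
  TA G X k q 2 = ∅ ∧ TA G X k q 3 = ∅

/-- **F.** Theorem F.  (Uses `S_A1`, `S_A3`, `S_H1`, `S_B5`, `S_L3`, `S_L4`.)

Proof. If `¬ NoK G X`: A1, A3 give an induced `P_6`.  If there is an induced cycle with at least seven vertices: H1,
second alternative.  Otherwise `NoC G X 7`.  The lengths `n` of induced paths (`IP G X n q`) are bounded by
`Nat.card V` (injectivity of `q` on `i < n`); let `k` be the largest one (`Nat.findGreatest` or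
`Set.Finite.exists_maximal`), `k ≥ 6`, `LP G X k q`.  L4 for `q` and for `rv k q` (`LP.rev`), L3: every `x ∈ X` is
some `q i`. -/
def S_F : Prop := ∀ (V : Type) [Finite V] (G : SimpleGraph V) (X : Set V), Prm G X → SPF G X 5 rF →
  (∃ n p, IP G X n p ∧ ∀ x ∈ X, ∃ i < n, x = p i) ∨
  (∃ n p, 7 ≤ n ∧ IC G X n p ∧ ∀ x ∈ X, ∃ i < n, x = p i) ∨ NoK G X

/-! ### general tools for small bases -/

/-- **T1.** From bounded clique-width to layouts of subsets.  (Uses `KS.S_Y8`.)

Proof. `c` the bound for `(H, J)`, `k = c + 1`.  `Y = ∅`: `LT.empty`.  Otherwise `Y` is nonempty and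
`¬ IsIndMinor H (G.induce Y)`, `¬ IsIndMinor J (G.induce Y)`: a model `B` in `G.induce Y` gives the model
`fun w => Subtype.val '' B w` in `G`, inside `Y` (`ims_univ_iff`; connectivity of the image: `Conn` is stated with sets:
for a proper nonempty subset `S'` of the image take its preimage).  So `CWLe c (G.induce Y)` and
`Lay (G.induce Y) c univ` (`KS.S_Y8`).  Claim: for `A : Set Y` with `Lay (G.induce Y) c A`: `RL G Y (c + 1) (val '' A)`, by
induction; in the union step `Rw G Y (val '' A) ⊆ insert ∅ ((fun T => val '' T) '' Types (G.induce Y) A)`: the row of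
`val a` is the image of the neighbourhood of `a` minus `A`, a type if it is not empty (look at the definition of
`Types`). -/
def S_T1 : Prop := KS.S_Y8 → ∀ (W W' : Type) (H : SimpleGraph W) (J : SimpleGraph W'),
  BoundedCW H J → ∃ k : ℕ, ∀ (V : Type) [Finite V] (G : SimpleGraph V) (Y : Set V), ¬ IMS H G Y →
    ¬ IMS J G Y → RL G Y k Y

/-- **T2.** Prime sets are enough.  (Uses `BU.S_R2`, `BU.S_R3`, `S_LayCW`; proved: `BU.r2 BU.r1`, `BU.r3`,
`LayCW.lean`.)

Proof. Let `G` be without `H`, `J` (`ims_univ_iff`), so `¬ IMS H G Y` for all `Y` (`IMS.mono`).  `S_R2` with `k = K + 1`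
(`LT.mono`): `RL G univ (K + 1) univ`; `S_R3` (2): `Lay G (K + 1) univ`; `S_LayCW`: `CWLe (3 (K + 2)) G`. -/
def S_T2 : Prop := S_R2 → S_R3 → S_LayCW → ∀ (W W' : Type) (H : SimpleGraph W)
  (J : SimpleGraph W'), (∃ K : ℕ, ∀ (V : Type) [Finite V] (G : SimpleGraph V) (X : Set V),
    Prm G X → ¬ IMS H G X → ¬ IMS J G X → RL G X K X) → BoundedCW H J

/-- **T3.** The two patterns.

Proof. (1) For `SP G X 5 S rF` the model of `KA 2 3 ![{0}, {0}, {1}]` is `inl 0 ↦ S 0`, `inl 1 ↦ S 3`, `inr 0 ↦ S 1`,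
`inr 1 ↦ S 2`, `inr 2 ↦ S 4`.  (2) For a model `B` of `KA 2 2 ![∅, ∅]` in `G[X]` take adjacent `a ∈ B (inl 0)`,
`b ∈ B (inl 1)`, and `x ∈ B (inr 0)`, `y ∈ B (inr 1)` (`Conn` sets are nonempty); the sets are disjoint and
non-adjacent ones do not touch. -/
def S_T3 : Prop := ∀ (V : Type) (G : SimpleGraph V) (X : Set V),
  (¬ IMS (KA 2 3 ![{0}, {0}, {1}]) G X → SPF G X 5 rF) ∧ (NoK G X → ¬ IMS (KA 2 2 ![∅, ∅]) G X)

/-- **T4.** Layouts of cycles.

Proof. As `BU.S_R5` (`BU/R5.lean`): `RL G X 4 {x | ∃ i < m, x = p i}` for `m ≤ n` by induction (`LT.insert`).  The rows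
of `A = {p i | i < m}`: for `0 < i`, `i + 1 < m` all neighbours of `p i` are in `A`: row `∅`.  So at most three rows:
of `p 0`, of `p (m - 1)`, and `∅`. -/
def S_T4 : Prop := ∀ (V : Type) (G : SimpleGraph V) (X : Set V) (n : ℕ) (p : ℕ → V), IC G X n p →
  (∀ x ∈ X, ∃ i < n, x = p i) → RL G X 4 X

/-- **Corollary.** (Uses `S_F`, `S_T1`, `KS.S_Y8`, `S_T2`, `S_R2`, `S_R3`, `S_LayCW`, `S_T3`, `S_T4`, `S_R5`.)

Proof. `k` from T1 for `(K_2 + 2 P_1, J)`.  T2 with `K = k + 4`: let `X` be prime without fork and `J`; T3 (1), F.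
Path: `S_R5` (3 rows).  Cycle: T4.  `NoK G X`: T3 (2), T1. -/
def S_Fork : Prop := ∀ (W : Type) (J : SimpleGraph W), BoundedCW (KA 2 2 ![∅, ∅]) J →
  BoundedCW (KA 2 3 ![{0}, {0}, {1}]) J

end Pool.Agent.MPd439b2.FK
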